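import Pool.Agent.WS.Base

set_option autoImplicit false

namespace Pool.Agent.WS

open Set Topology

/-- compatibility relation of the cross-polytope -/
def rp (m : ℕ) : (Fin m ⊕ Fin m) → (Fin m ⊕ Fin m) → Prop
  | Sum.inl _, Sum.inl _ => True
  | Sum.inr _, Sum.inr _ => True
  | Sum.inl i, Sum.inr j => i ≠ j
  | Sum.inr i, Sum.inl j => i ≠ j

noncomputable def yv (m : ℕ) (x : Fin m ⊕ Fin m → ℝ) : EuclideanSpace ℝ (Fin m) :=
  WithLp.toLp 2 (fun i => x (Sum.inl i) - x (Sum.inr i))

theorem yv_apply (m : ℕ) (x : Fin m ⊕ Fin m → ℝ) (i : Fin m) :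
    yv m x i = x (Sum.inl i) - x (Sum.inr i) := rfl

theorem continuous_yv (m : ℕ) : Continuous (yv m) := by
  unfold yv
  refine (PiLp.continuous_toLp 2 _).comp ?_
  refine continuous_pi fun i => ?_
  exact (continuous_apply _).sub (continuous_apply _)

theorem opp {m : ℕ} {x : Fin m ⊕ Fin m → ℝ} (hx : x ∈ real (rp m) Finset.univ) (i : Fin m) :
    x (Sum.inl i) = 0 ∨ x (Sum.inr i) = 0 := by
  by_contra h
  push Not at h
  exact hx.2.2.2 _ _ h.1 h.2 rfl

theorem sum_abs {m : ℕ} {x : Fin m ⊕ Fin m → ℝ} (hx : x ∈ real (rp m) Finset.univ) :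
    ∑ i, |yv m x i| = 1 := by
  have h1 := hx.2.2.1
  rw [Fintype.sum_sum_type, ← Finset.sum_add_distrib] at h1
  rw [← h1]
  refine Finset.sum_congr rfl fun i _ => ?_
  rw [yv_apply]
  have ha := hx.1 (Sum.inl i)
  have hb := hx.1 (Sum.inr i)
  rcases opp hx i with h | h
  · rw [h, zero_sub, abs_neg, abs_of_nonneg hb, zero_add]
  · rw [h, sub_zero, abs_of_nonneg ha, add_zero]

theorem yv_norm_pos {m : ℕ} {x : Fin m ⊕ Fin m → ℝ} (hx : x ∈ real (rp m) Finset.univ) :
    0 < ‖yv m x‖ := by
  rw [norm_pos_iff]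
  intro h
  have := sum_abs hx
  rw [h] at this
  simp at this

noncomputable def gv (m : ℕ) (y : EuclideanSpace ℝ (Fin m)) : Fin m ⊕ Fin m → ℝ
  | Sum.inl i => max (y i) 0 / ∑ j, |y j|
  | Sum.inr i => max (- y i) 0 / ∑ j, |y j|

theorem sum_abs_pos {m : ℕ} {y : EuclideanSpace ℝ (Fin m)} (hy : ‖y‖ = 1) :
    0 < ∑ j, |y j| := by
  have h0 : 0 ≤ ∑ j, |y j| := Finset.sum_nonneg fun j _ => abs_nonneg _
  rcases h0.lt_or_eq with h | h
  · exact h
  · exfalso
    have h1 : ∀ j, y j = 0 := by
      intro j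
      have := (Finset.sum_eq_zero_iff_of_nonneg (fun j _ => abs_nonneg (y j))).1 h.symm j
        (Finset.mem_univ j)
      exact abs_eq_zero.1 this
    have : y = 0 := by
      ext j; exact h1 j
    rw [this, norm_zero] at hy
    norm_num at hy

theorem gv_mem {m : ℕ} {y : EuclideanSpace ℝ (Fin m)} (hy : ‖y‖ = 1) :
    gv m y ∈ real (rp m) Finset.univ := by
  have hpos := sum_abs_pos hy
  refine ⟨?_, ?_, ?_, ?_⟩
  · rintro (i | i)
    · exact div_nonneg (le_max_right _ _) hpos.le
    · exact div_nonneg (le_max_right _ _) hpos.le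
  · intro v hv
    exact absurd (Finset.mem_univ v) hv
  · rw [Fintype.sum_sum_type, ← Finset.sum_add_distrib]
    have : ∀ i, gv m y (Sum.inl i) + gv m y (Sum.inr i) = |y i| / ∑ j, |y j| := by
      intro i
      show max (y i) 0 / _ + max (- y i) 0 / _ = _
      rw [← add_div]
      congr 1
      rcases le_total 0 (y i) with h | h
      · rw [max_eq_left h, max_eq_right (by linarith), abs_of_nonneg h, add_zero]
      · rw [max_eq_right h, max_eq_left (by linarith), abs_of_nonpos h, zero_add]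
    rw [Finset.sum_congr rfl fun i _ => this i, ← Finset.sum_div]
    exact div_self hpos.ne'
  · have hl : ∀ i, gv m y (Sum.inl i) ≠ 0 → 0 < y i := by
      intro i h
      by_contra hc
      apply h
      show max (y i) 0 / _ = 0
      rw [max_eq_right (not_lt.1 hc), zero_div]
    have hrr : ∀ i, gv m y (Sum.inr i) ≠ 0 → y i < 0 := by
      intro i h
      by_contra hc
      apply h
      show max (- y i) 0 / _ = 0
      rw [max_eq_right (by linarith [not_lt.1 hc]), zero_div]
    rintro (i | i) (j | j) h1 h2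
    · trivial
    · rintro rfl
      have := hl i h1
      have := hrr i h2
      linarith
    · rintro rfl
      have := hl i h2
      have := hrr i h1
      linarith
    · trivial

theorem continuous_coord (m : ℕ) (i : Fin m) :
    Continuous (fun y : EuclideanSpace ℝ (Fin m) => y i) :=
  (continuous_apply i).comp (PiLp.continuous_ofLp 2 _)

theorem sphere_homeo (m : ℕ) :
    Nonempty (↥(real (rp m) Finset.univ) ≃ₜ
      ↥(Metric.sphere (0 : EuclideanSpace ℝ (Fin m)) 1)) := by
  refine ⟨{
    toFun := fun x => ⟨‖yv m x.1‖⁻¹ • yv m x.1, ?_⟩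
    invFun := fun y => ⟨gv m y.1, gv_mem (by simp)⟩
    left_inv := ?_
    right_inv := ?_
    continuous_toFun := ?_
    continuous_invFun := ?_ }⟩
  · rw [mem_sphere_zero_iff_norm, norm_smul, norm_inv, norm_norm]
    exact inv_mul_cancel₀ (yv_norm_pos x.2).ne'
  · intro x
    apply Subtype.ext
    funext v
    have hpos := yv_norm_pos x.2
    have hs : ∑ j, |(‖yv m x.1‖⁻¹ • yv m x.1) j| = ‖yv m x.1‖⁻¹ := by
      have : ∀ j, |(‖yv m x.1‖⁻¹ • yv m x.1) j| = ‖yv m x.1‖⁻¹ * |yv m x.1 j| := by
        intro j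
        rw [PiLp.smul_apply, smul_eq_mul, abs_mul, abs_of_pos (inv_pos.2 hpos)]
      rw [Finset.sum_congr rfl fun j _ => this j, ← Finset.mul_sum, sum_abs x.2, mul_one]
    rcases v with i | i
    · show max ((‖yv m x.1‖⁻¹ • yv m x.1) i) 0 / _ = _
      rw [hs, PiLp.smul_apply, smul_eq_mul, yv_apply]
      have ha := x.2.1 (Sum.inl i)
      have hb := x.2.1 (Sum.inr i)
      rcases opp x.2 i with h | h
      · rw [h, zero_sub, max_eq_right, zero_div]
        have := mul_nonneg (inv_pos.2 hpos).le hb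
        linarith
      · rw [h, sub_zero, max_eq_left (mul_nonneg (inv_pos.2 hpos).le ha)]
        field_simp
    · show max (- (‖yv m x.1‖⁻¹ • yv m x.1) i) 0 / _ = _
      rw [hs, PiLp.smul_apply, smul_eq_mul, yv_apply]
      have ha := x.2.1 (Sum.inl i)
      have hb := x.2.1 (Sum.inr i)
      rcases opp x.2 i with h | h
      · rw [h, zero_sub, mul_neg, neg_neg, max_eq_left (mul_nonneg (inv_pos.2 hpos).le hb)]
        field_simp
      · rw [h, sub_zero, max_eq_right, zero_div]
        have := mul_nonneg (inv_pos.2 hpos).le ha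
        linarith
  · intro y
    apply Subtype.ext
    have hy : ‖y.1‖ = 1 := by simp
    have hpos := sum_abs_pos hy
    have h1 : yv m (gv m y.1) = (∑ j, |y.1 j|)⁻¹ • y.1 := by
      ext i
      rw [yv_apply, PiLp.smul_apply, smul_eq_mul]
      show max (y.1 i) 0 / _ - max (- y.1 i) 0 / _ = _
      rw [← sub_div, inv_mul_eq_div]
      congr 1
      rcases le_total 0 (y.1 i) with h | h
      · rw [max_eq_left h, max_eq_right (by linarith), sub_zero]
      · rw [max_eq_right h, max_eq_left (by linarith)]; ring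
    show ‖yv m (gv m y.1)‖⁻¹ • yv m (gv m y.1) = y.1
    rw [h1, norm_smul, hy, mul_one, norm_inv, inv_inv, Real.norm_of_nonneg hpos.le, smul_smul,
      mul_inv_cancel₀ hpos.ne', one_smul]
  · refine Continuous.subtype_mk ?_ _
    have hc1 : Continuous (fun x : ↥(real (rp m) Finset.univ) => yv m x.1) :=
      (continuous_yv m).comp continuous_subtype_val
    have hc2 : Continuous (fun x : ↥(real (rp m) Finset.univ) => ‖yv m x.1‖⁻¹) :=
      Continuous.inv₀ hc1.norm (fun x => (yv_norm_pos x.2).ne')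
    exact hc2.smul hc1
  · refine Continuous.subtype_mk ?_ _
    refine continuous_pi fun v => ?_
    have hs : Continuous (fun y : ↥(Metric.sphere (0 : EuclideanSpace ℝ (Fin m)) 1) =>
        ∑ j, |y.1 j|) := by
      refine continuous_finsetSum _ fun j _ => ?_
      exact ((continuous_coord m j).comp continuous_subtype_val).abs
    have hne : ∀ y : ↥(Metric.sphere (0 : EuclideanSpace ℝ (Fin m)) 1), ∑ j, |y.1 j| ≠ 0 :=
      fun y => (sum_abs_pos (by simp)).ne'
    rcases v with i | i
    · show Continuous (fun y : ↥(Metric.sphere (0 : EuclideanSpace ℝ (Fin m)) 1) =>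
        max (y.1 i) 0 / ∑ j, |y.1 j|)
      refine Continuous.div ?_ hs hne
      exact ((continuous_coord m i).comp continuous_subtype_val).max continuous_const
    · show Continuous (fun y : ↥(Metric.sphere (0 : EuclideanSpace ℝ (Fin m)) 1) =>
        max (- y.1 i) 0 / ∑ j, |y.1 j|)
      refine Continuous.div ?_ hs hne
      exact ((continuous_coord m i).comp continuous_subtype_val).neg.max continuous_const

/-- embedding of the cross-polytope vertices -/
def phi (m : ℕ) : (Fin m ⊕ Fin m) ↪ (Finset ℕ ⊕ ℕ) where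
  toFun
    | Sum.inl i => Sum.inl {0, i.1 + 2}
    | Sum.inr i => Sum.inr i.1
  inj' := by
    rintro (i | i) (j | j) h
    · have h1 : ({0, i.1 + 2} : Finset ℕ) = {0, j.1 + 2} := Sum.inl_injective h
      have h2 : i.1 + 2 ∈ ({0, j.1 + 2} : Finset ℕ) := by rw [← h1]; simp
      rw [Finset.mem_insert, Finset.mem_singleton] at h2
      congr 1
      apply Fin.ext
      omega
    · exact absurd h (by simp)
    · exact absurd h (by simp)
    · have h1 : i.1 = j.1 := Sum.inr_injective h
      congr 1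
      exact Fin.ext h1

theorem Vst_last {n : ℕ} (hn : 4 ≤ n) :
    Vst n (n - 3) = (Finset.univ : Finset (Fin (n - 3) ⊕ Fin (n - 3))).map (phi (n - 3)) := by
  ext v
  rw [Finset.mem_map]
  rcases v with S | i
  · rw [inl_mem_Vst, mem_U hn]
    constructor
    · rintro ⟨a, b, h1, h2, h3, h4, h5, rfl⟩
      have ha : a = 0 := by omega
      subst ha
      refine ⟨Sum.inl ⟨b - 2, by omega⟩, Finset.mem_univ _, ?_⟩
      show (Sum.inl {0, b - 2 + 2} : Finset ℕ ⊕ ℕ) = _
      rw [show b - 2 + 2 = b by omega]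
    · rintro ⟨i | i, -, h⟩
      · have h1 : ({0, i.1 + 2} : Finset ℕ) = S := Sum.inl_injective h
        have := i.2
        exact ⟨0, i.1 + 2, by omega, by omega, by omega, by omega, Or.inl rfl, h1.symm⟩
      · exact absurd h (by simp [phi])
  · rw [inr_mem_Vst]
    constructor
    · intro h
      exact ⟨Sum.inr ⟨i, h⟩, Finset.mem_univ _, rfl⟩
    · rintro ⟨j | j, -, h⟩
      · exact absurd h (by simp [phi])
      · have h1 : j.1 = i := Sum.inr_injective h
        have := j.2
        omega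

theorem phi_rel {m : ℕ} (a b : Fin m ⊕ Fin m) : rp m a b ↔ rel (phi m a) (phi m b) := by
  have key : ∀ i j : Fin m, i ≠ j ↔ ({0, i.1 + 2} : Finset ℕ) ≠ {0, j.1 + 2} := by
    intro i j
    rw [not_iff_not]
    constructor
    · rintro rfl; rfl
    · intro h1
      have h2 : i.1 + 2 ∈ ({0, j.1 + 2} : Finset ℕ) := by rw [← h1]; simp
      rw [Finset.mem_insert, Finset.mem_singleton] at h2
      apply Fin.ext
      omega
  rcases a with i | i <;> rcases b with j | j
  · show True ↔ R {0, i.1 + 2} {0, j.1 + 2}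
    refine iff_of_true trivial ?_
    rw [R_pairs (by omega) (by omega)]
    omega
  · exact key i j
  · show i ≠ j ↔ ({0, j.1 + 2} : Finset ℕ) ≠ {0, i.1 + 2}
    rw [ne_comm]
    exact key j i
  · exact Iff.rfl

theorem W2_sphere {n : ℕ} (hn : 4 ≤ n) :
    Nonempty (ContinuousMap.HomotopyEquiv ↥(real R (W 2 n))
      ↥(Metric.sphere (0 : EuclideanSpace ℝ (Fin (n - 3))) 1)) := by
  obtain ⟨e1⟩ := real_map (Function.Embedding.inl : Finset ℕ ↪ Finset ℕ ⊕ ℕ)
    (r := R) (r' := rel) (W 2 n) (fun a _ b _ => Iff.rfl)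
  rw [← Vst_zero] at e1
  obtain ⟨e2⟩ := steps hn (n - 3) (by omega)
  obtain ⟨e3⟩ := real_map (phi (n - 3)) (r := rp (n - 3)) (r' := rel) Finset.univ
    (fun a _ b _ => phi_rel a b)
  rw [← Vst_last hn] at e3
  obtain ⟨e4⟩ := sphere_homeo (n - 3)
  exact ⟨((e1.toHomotopyEquiv.trans e2).trans e3.symm.toHomotopyEquiv).trans
    e4.toHomotopyEquiv⟩

end Pool.Agent.WS
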