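import Pool.Agent.WS.Levels

set_option autoImplicit false

namespace Pool.Agent.WS

open Classical Set Topology

/-- compatibility relation on subsets together with auxiliary poles -/
def rel : (Finset ℕ ⊕ ℕ) → (Finset ℕ ⊕ ℕ) → Prop
  | Sum.inl S, Sum.inl T => R S T
  | Sum.inl S, Sum.inr j => S ≠ {0, j + 2}
  | Sum.inr j, Sum.inl S => S ≠ {0, j + 2}
  | Sum.inr _, Sum.inr _ => True

theorem rel_refl : ∀ v, rel v v
  | Sum.inl S => R_refl S
  | Sum.inr _ => trivial

theorem rel_symm : ∀ v w, rel v w → rel w v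
  | Sum.inl S, Sum.inl T => R_symm S T
  | Sum.inl _, Sum.inr _ => id
  | Sum.inr _, Sum.inl _ => id
  | Sum.inr _, Sum.inr _ => id

/-- description of two-element non-intervals -/
theorem mem_W2 {n : ℕ} (hn : 4 ≤ n) {S : Finset ℕ} :
    S ∈ W 2 n ↔ ∃ a b, a < b ∧ b < n ∧ a + 2 ≤ b ∧ ¬ (a = 0 ∧ b + 1 = n) ∧ S = {a, b} := by
  rw [mem_W]
  constructor
  · rintro ⟨h1, h2, h3⟩
    obtain ⟨a, b, hab, rfl⟩ := Finset.card_eq_two.1 h2
    have ha : a < n := Finset.mem_range.1 (h1 (by simp))
    have hb : b < n := Finset.mem_range.1 (h1 (by simp))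
    have key : ∀ a b : ℕ, a < b → b < n → ¬ isInt 2 n {a, b} →
        ∃ a' b', a' < b' ∧ b' < n ∧ a' + 2 ≤ b' ∧ ¬ (a' = 0 ∧ b' + 1 = n) ∧
          ({a, b} : Finset ℕ) = {a', b'} := by
      intro a b hab hb h
      refine ⟨a, b, hab, hb, ?_, ?_, rfl⟩
      · by_contra hlt
        apply h
        rw [isInt_iff (by omega)]
        refine ⟨a, by omega, ?_⟩
        intro z
        rw [Finset.mem_insert, Finset.mem_singleton]
        unfold arc
        omega
      · intro hc
        apply h
        rw [isInt_iff (by omega)]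
        refine ⟨b, by omega, ?_⟩
        intro z
        rw [Finset.mem_insert, Finset.mem_singleton]
        unfold arc
        omega
    rcases lt_or_gt_of_ne hab with h | h
    · exact key a b h hb h3
    · rw [Finset.pair_comm] at h3 ⊢
      exact key b a h ha h3
  · rintro ⟨a, b, hab, hb, h2, h0, rfl⟩
    refine ⟨?_, Finset.card_pair (by omega), ?_⟩
    · intro z hz
      rw [Finset.mem_insert, Finset.mem_singleton] at hz
      rw [Finset.mem_range]; omega
    · rw [isInt_iff (by omega)]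
      rintro ⟨i, hi, h⟩
      have ha := (h a).1 (by simp)
      have hb' := (h b).1 (by simp)
      unfold arc at *
      omega

/-- crossing of two pairs -/
theorem R_pairs {a b c d : ℕ} (hab : a < b) (hcd : c < d) :
    R {a, b} {c, d} ↔ ¬ ((a < c ∧ c < b ∧ b < d) ∨ (c < a ∧ a < d ∧ d < b)) := by
  unfold R
  rw [not_iff_not]
  simp only [Finset.mem_sdiff, Finset.mem_insert, Finset.mem_singleton]
  constructor
  · rintro ⟨x, y, z, w, h1, h2, h3, h4⟩
    omega
  · rintro (h | h)
    · exact ⟨a, c, b, d, h.1, h.2.1, h.2.2, Or.inl (by omega)⟩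
    · exact ⟨c, a, d, b, h.1, h.2.1, h.2.2, Or.inr (by omega)⟩

/-- subset part of the `j`-th stage -/
noncomputable def U (n j : ℕ) : Finset (Finset ℕ) :=
  (W 2 n).filter (fun S => 0 ∈ S ∨ ∀ a ∈ S, j < a)

/-- the `j`-th stage -/
noncomputable def Vst (n j : ℕ) : Finset (Finset ℕ ⊕ ℕ) :=
  (U n j).map Function.Embedding.inl ∪ (Finset.range j).map Function.Embedding.inr

theorem inl_mem_Vst {n j : ℕ} {S : Finset ℕ} : Sum.inl S ∈ Vst n j ↔ S ∈ U n j := by
  unfold Vst
  simp

theorem inr_mem_Vst {n j i : ℕ} : (Sum.inr i : Finset ℕ ⊕ ℕ) ∈ Vst n j ↔ i < j := by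
  unfold Vst
  simp

theorem mem_U {n j : ℕ} (hn : 4 ≤ n) {S : Finset ℕ} :
    S ∈ U n j ↔ ∃ a b, a < b ∧ b < n ∧ a + 2 ≤ b ∧ ¬ (a = 0 ∧ b + 1 = n) ∧ (a = 0 ∨ j < a) ∧
      S = {a, b} := by
  unfold U
  rw [Finset.mem_filter, mem_W2 hn]
  constructor
  · rintro ⟨⟨a, b, h1, h2, h3, h4, rfl⟩, h5⟩
    refine ⟨a, b, h1, h2, h3, h4, ?_, rfl⟩
    rcases h5 with h | h
    · rw [Finset.mem_insert, Finset.mem_singleton] at h
      left; omega
    · right; exact h a (by simp)
  · rintro ⟨a, b, h1, h2, h3, h4, h5, rfl⟩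
    refine ⟨⟨a, b, h1, h2, h3, h4, rfl⟩, ?_⟩
    rcases h5 with h | h
    · left; rw [h]; simp
    · right
      intro z hz
      rw [Finset.mem_insert, Finset.mem_singleton] at hz
      omega

/-- the link of the new pole is contractible -/
theorem pole_link {n j : ℕ} (hn : 4 ≤ n) (hj : j + 3 < n) :
    ContractibleSpace ↥(real rel ((Vst n j).filter (rel (Sum.inr j)))) := by
  set V := (Vst n j).filter (rel (Sum.inr j)) with hV
  refine contractible_of_crit rel_refl rel_symm _ V
    (V.filter (fun v => ∃ b, j + 3 ≤ b ∧ v = Sum.inl {j + 1, b})) rfl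
    (Finset.filter_subset _ _) ?_ ?_
  · intro v hv w hw
    rw [Finset.mem_filter] at hv hw
    obtain ⟨-, b, hb, rfl⟩ := hv
    obtain ⟨-, b', hb', rfl⟩ := hw
    show R {j + 1, b} {j + 1, b'}
    rw [R_pairs (by omega) (by omega)]
    omega
  · intro γ hγ hcl
    have hinl : ∀ S, Sum.inl S ∈ γ → ∃ a b, a < b ∧ b < n ∧ a + 2 ≤ b ∧ ¬ (a = 0 ∧ b + 1 = n) ∧
        (a = 0 ∨ j < a) ∧ ¬ (a = 0 ∧ b = j + 2) ∧ S = {a, b} := by
      intro S hS
      have h1 := hγ hS
      rw [hV, Finset.mem_filter, inl_mem_Vst, mem_U hn] at h1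
      obtain ⟨⟨a, b, h1, h2, h3, h4, h5, rfl⟩, h6⟩ := h1
      refine ⟨a, b, h1, h2, h3, h4, h5, ?_, rfl⟩
      rintro ⟨rfl, rfl⟩
      exact h6 rfl
    let F : Finset ℕ := (Finset.range n).filter
      (fun d => d = j + 3 ∨ (j + 3 ≤ d ∧ Sum.inl {j + 2, d} ∈ γ))
    have hF : F.Nonempty := ⟨j + 3, Finset.mem_filter.2 ⟨Finset.mem_range.2 hj, Or.inl rfl⟩⟩
    obtain ⟨b, hbF, hbmax⟩ := F.exists_max_image id hF
    have hb := Finset.mem_filter.1 hbF
    have hbn := Finset.mem_range.1 hb.1
    have hb3 : j + 3 ≤ b := by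
      rcases hb.2 with h | h
      · omega
      · exact h.1
    have hmax : ∀ d, d < n → j + 3 ≤ d → Sum.inl {j + 2, d} ∈ γ → d ≤ b := by
      intro d h1 h2 h3
      exact hbmax d (Finset.mem_filter.2 ⟨Finset.mem_range.2 h1, Or.inr ⟨h2, h3⟩⟩)
    refine ⟨Sum.inl {j + 1, b}, ?_, ?_⟩
    · rw [Finset.mem_filter, hV, Finset.mem_filter, inl_mem_Vst, mem_U hn]
      refine ⟨⟨⟨j + 1, b, by omega, hbn, by omega, by omega, by omega, rfl⟩, ?_⟩, b, hb3, rfl⟩
      show ({j + 1, b} : Finset ℕ) ≠ {0, j + 2}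
      intro h
      have : (0 : ℕ) ∈ ({j + 1, b} : Finset ℕ) := by rw [h]; simp
      rw [Finset.mem_insert, Finset.mem_singleton] at this
      omega
    · rintro (S | i) hg
      · obtain ⟨c, d, h1, h2, h3, h4, h5, h6, rfl⟩ := hinl S hg
        show R {j + 1, b} {c, d}
        rw [R_pairs (by omega) h1]
        intro hcross
        -- c = 0 and j+1 < d < b, or j+1 < c < b < d
        rcases hcross with hc | hc
        · -- j + 1 < c < b < d
          by_cases hc2 : c = j + 2
          · subst hc2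
            have := hmax d h2 (by omega) hg
            omega
          · rcases hb.2 with h | h
            · omega
            · have h7 : R {j + 2, b} {c, d} := hcl _ h.2 _ hg
              rw [R_pairs (by omega) h1] at h7
              omega
        · -- c < j+1 < d < b
          have hc0 : c = 0 := by omega
          subst hc0
          rcases hb.2 with h | h
          · omega
          · have h7 : R {j + 2, b} {0, d} := hcl _ h.2 _ hg
            rw [R_pairs (by omega) h1] at h7
            omega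
      · show ({j + 1, b} : Finset ℕ) ≠ {0, i + 2}
        intro h
        have : (0 : ℕ) ∈ ({j + 1, b} : Finset ℕ) := by rw [h]; simp
        rw [Finset.mem_insert, Finset.mem_singleton] at this
        omega

theorem step {n j : ℕ} (hn : 4 ≤ n) (hj : j + 3 < n) :
    Nonempty (ContinuousMap.HomotopyEquiv ↥(real rel (Vst n j)) ↥(real rel (Vst n (j + 1)))) := by
  have hnot : (Sum.inr j : Finset ℕ ⊕ ℕ) ∉ Vst n j := by
    rw [inr_mem_Vst]; omega
  obtain ⟨e1⟩ := remove_vertex (r := rel) (Sum.inr j) rel_refl rel_symm hnot (pole_link hn hj)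
  set A := Vst n (j + 1) with hA
  set B := (Vst n j).filter (fun v => ∃ b, j + 3 ≤ b ∧ v = Sum.inl {j + 1, b}) with hB
  have hdis : Disjoint A B := by
    rw [Finset.disjoint_left]
    intro v hvA hvB
    rw [hB, Finset.mem_filter] at hvB
    obtain ⟨-, b, hb, rfl⟩ := hvB
    rw [hA, inl_mem_Vst, mem_U hn] at hvA
    obtain ⟨a, b', h1, h2, h3, h4, h5, h6⟩ := hvA
    have e1 : j + 1 ∈ ({a, b'} : Finset ℕ) := by rw [← h6]; simp
    have e2 : a ∈ ({j + 1, b} : Finset ℕ) := by rw [h6]; simp
    have e3 : b' ∈ ({j + 1, b} : Finset ℕ) := by rw [h6]; simp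
    rw [Finset.mem_insert, Finset.mem_singleton] at e1 e2 e3
    omega
  have hun : A ∪ B = insert (Sum.inr j) (Vst n j) := by
    ext v
    rw [Finset.mem_union, Finset.mem_insert, hB, Finset.mem_filter, hA]
    rcases v with S | i
    · rw [inl_mem_Vst, inl_mem_Vst, mem_U hn, mem_U hn]
      constructor
      · rintro (⟨a, b, h1, h2, h3, h4, h5, rfl⟩ | ⟨h, -⟩)
        · exact Or.inr ⟨a, b, h1, h2, h3, h4, by omega, rfl⟩
        · exact Or.inr h
      · rintro (h | ⟨a, b, h1, h2, h3, h4, h5, rfl⟩)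
        · exact absurd h (by simp)
        · by_cases ha : a = 0 ∨ j + 1 < a
          · exact Or.inl ⟨a, b, h1, h2, h3, h4, ha, rfl⟩
          · have : a = j + 1 := by omega
            subst this
            exact Or.inr ⟨⟨j + 1, b, h1, h2, h3, h4, h5, rfl⟩, b, by omega, rfl⟩
    · rw [inr_mem_Vst, inr_mem_Vst]
      constructor
      · rintro (h | ⟨h, -⟩)
        · by_cases hij : i = j
          · left; rw [hij]
          · right; omega
        · right; exact h
      · rintro (h | h)
        · left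
          have : i = j := Sum.inr_injective h
          omega
        · left; omega
  obtain ⟨e2⟩ := bip rel_refl rel_symm _ A B rfl hdis (by
    intro β hβ hne hcl
    set V := A.filter (fun a => ∀ b ∈ β, rel b a) with hV
    have hw : (Sum.inr j : Finset ℕ ⊕ ℕ) ∈ V := by
      rw [hV, Finset.mem_filter, hA, inr_mem_Vst]
      refine ⟨by omega, ?_⟩
      intro b hb
      have hbB := hβ hb
      rw [hB, Finset.mem_filter] at hbB
      obtain ⟨-, c, hc, rfl⟩ := hbB
      show ({j + 1, c} : Finset ℕ) ≠ {0, j + 2}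
      intro h
      have : (0 : ℕ) ∈ ({j + 1, c} : Finset ℕ) := by rw [h]; simp
      rw [Finset.mem_insert, Finset.mem_singleton] at this
      omega
    refine contractible_of_crit rel_refl rel_symm _ V {Sum.inr j} rfl
      (Finset.singleton_subset_iff.2 hw) ?_ ?_
    · intro a ha b hb
      rw [Finset.mem_singleton] at ha hb
      rw [ha, hb]; exact rel_refl _
    · intro γ hγ _
      refine ⟨Sum.inr j, Finset.mem_singleton_self _, ?_⟩
      intro g hg
      rcases g with S | i
      · show S ≠ {0, j + 2}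
        rintro rfl
        obtain ⟨b, hb⟩ := hne
        have h1 := (Finset.mem_filter.1 (hγ hg)).2 b hb
        have hbB := hβ hb
        rw [hB, Finset.mem_filter] at hbB
        obtain ⟨-, c, hc, rfl⟩ := hbB
        have h2 : R {j + 1, c} {0, j + 2} := h1
        rw [R_pairs (by omega) (by omega)] at h2
        omega
      · trivial)
  rw [hun] at e2
  exact ⟨e1.symm.trans e2⟩

theorem steps {n : ℕ} (hn : 4 ≤ n) : ∀ j, j + 3 ≤ n →
    Nonempty (ContinuousMap.HomotopyEquiv ↥(real rel (Vst n 0)) ↥(real rel (Vst n j))) := by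
  intro j
  induction j with
  | zero => intro _; exact ⟨ContinuousMap.HomotopyEquiv.refl _⟩
  | succ j ih =>
    intro hj
    obtain ⟨e1⟩ := ih (by omega)
    obtain ⟨e2⟩ := step hn (j := j) (by omega)
    exact ⟨e1.trans e2⟩

theorem Vst_zero {n : ℕ} : Vst n 0 = (W 2 n).map Function.Embedding.inl := by
  ext v
  rcases v with S | i
  · rw [inl_mem_Vst]
    simp only [U, Finset.mem_filter, Finset.mem_map, Function.Embedding.inl_apply,
      Sum.inl.injEq, exists_eq_right]
    constructor
    · exact fun h => h.1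
    · intro h
      refine ⟨h, ?_⟩
      by_cases h0 : 0 ∈ S
      · exact Or.inl h0
      · right
        intro a ha
        by_contra hc
        have : a = 0 := by omega
        exact h0 (this ▸ ha)
  · rw [inr_mem_Vst]
    simp

end Pool.Agent.WS
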