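import Pool.Agent.WS.Remove

set_option autoImplicit false

namespace Pool.Agent.WS

open Classical Set Topology

variable {α : Type*} [DecidableEq α] {r : α → α → Prop}

theorem convex_real {A : Finset α} (hA : ∀ a ∈ A, ∀ b ∈ A, r a b) : Convex ℝ (real r A) := by
  rintro x ⟨hx0, hx1, hx2, hx3⟩ y ⟨hy0, hy1, hy2, hy3⟩ a b ha hb hab
  refine ⟨?_, ?_, ?_, ?_⟩
  · intro v
    have h1 := hx0 v
    have h2 := hy0 v
    simp only [Pi.add_apply, Pi.smul_apply, smul_eq_mul]
    positivity
  · intro v hv
    simp only [Pi.add_apply, Pi.smul_apply, smul_eq_mul]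
    rw [hx1 v hv, hy1 v hv]; ring
  · simp only [Pi.add_apply, Pi.smul_apply, smul_eq_mul]
    rw [Finset.sum_add_distrib, ← Finset.mul_sum, ← Finset.mul_sum, hx2, hy2]
    linarith
  · intro v w hv hw
    have key : ∀ v, (a • x + b • y) v ≠ 0 → v ∈ A := by
      intro v hv
      by_contra h
      apply hv
      simp only [Pi.add_apply, Pi.smul_apply, smul_eq_mul]
      rw [hx1 v h, hy1 v h]; ring
    exact hA v (key v hv) w (key w hw)

theorem single_mem_real (hr : ∀ v, r v v) {V : Finset α} {a : α} (ha : a ∈ V) :
    (Pi.single a (1:ℝ) : α → ℝ) ∈ real r V := by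
  refine ⟨?_, ?_, ?_, ?_⟩
  · intro v
    rw [Pi.single_apply]
    split_ifs <;> norm_num
  · intro v hv
    rw [Pi.single_apply, if_neg]
    rintro rfl; exact hv ha
  · rw [Finset.sum_eq_single a]
    · simp
    · intro b _ hb
      simp [Pi.single_apply, hb]
    · intro h; exact absurd ha h
  · intro v w hv hw
    have key : ∀ v, (Pi.single a (1:ℝ) : α → ℝ) v ≠ 0 → v = a := by
      intro v hv
      by_contra h
      apply hv
      simp [Pi.single_apply, h]
    rw [key v hv, key w hw]
    exact hr a

theorem contractible_clique (hr : ∀ v, r v v) {A : Finset α} (hA : ∀ a ∈ A, ∀ b ∈ A, r a b)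
    (hne : A.Nonempty) : ContractibleSpace ↥(real r A) := by
  obtain ⟨a, ha⟩ := hne
  exact (convex_real hA).contractibleSpace ⟨_, single_mem_real hr ha⟩

theorem contractible_of_crit (hr : ∀ v, r v v) (hs : ∀ v w, r v w → r w v) :
    ∀ (n : ℕ) (V A : Finset α), V.card = n → A ⊆ V → (∀ a ∈ A, ∀ b ∈ A, r a b) →
    (∀ γ ⊆ V, (∀ g ∈ γ, ∀ h ∈ γ, r g h) → ∃ a ∈ A, ∀ g ∈ γ, r a g) →
    ContractibleSpace ↥(real r V) := by
  intro n
  induction n using Nat.strong_induction_on with
  | _ n ih =>
    intro V A hcard hAV hA hγ
    by_cases hVA : V ⊆ A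
    · have : V = A := Finset.Subset.antisymm hVA hAV
      subst this
      obtain ⟨a, ha, -⟩ := hγ ∅ (Finset.empty_subset _) (by simp)
      exact contractible_clique hr hA ⟨a, ha⟩
    · obtain ⟨v, hvV, hvA⟩ := Finset.not_subset.1 hVA
      have hins : insert v (V.erase v) = V := Finset.insert_erase hvV
      have hc1 : (V.erase v).card < n := by
        rw [← hcard]; exact Finset.card_erase_lt_of_mem hvV
      have hLV : (V.erase v).filter (r v) ⊆ V :=
        (Finset.filter_subset _ _).trans (Finset.erase_subset _ _)
      have hL : ContractibleSpace ↥(real r ((V.erase v).filter (r v))) := by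
        refine ih _ (lt_of_le_of_lt (Finset.card_filter_le _ _) hc1) _ (A.filter (r v)) rfl
          ?_ ?_ ?_
        · intro a ha
          rw [Finset.mem_filter] at ha ⊢
          exact ⟨Finset.mem_erase.2 ⟨by rintro rfl; exact hvA ha.1, hAV ha.1⟩, ha.2⟩
        · intro a ha b hb
          exact hA a (Finset.mem_filter.1 ha).1 b (Finset.mem_filter.1 hb).1
        · intro γ hγL hcl
          obtain ⟨a, ha, hag⟩ := hγ (insert v γ)
            (Finset.insert_subset hvV (hγL.trans hLV)) (by
              intro g hg h hh
              rw [Finset.mem_insert] at hg hh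
              rcases hg with rfl | hg
              · rcases hh with rfl | hh
                · exact hr _
                · exact (Finset.mem_filter.1 (hγL hh)).2
              · rcases hh with rfl | hh
                · exact hs _ _ (Finset.mem_filter.1 (hγL hg)).2
                · exact hcl g hg h hh)
          refine ⟨a, ?_, fun g hg => hag g (Finset.mem_insert_of_mem hg)⟩
          rw [Finset.mem_filter]
          exact ⟨ha, hs _ _ (hag v (Finset.mem_insert_self _ _))⟩
      have hV' : ContractibleSpace ↥(real r (V.erase v)) := by
        refine ih _ hc1 _ A rfl ?_ hA ?_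
        · intro a ha
          exact Finset.mem_erase.2 ⟨by rintro rfl; exact hvA ha, hAV ha⟩
        · intro γ hγV hcl
          exact hγ γ (hγV.trans (Finset.erase_subset _ _)) hcl
      obtain ⟨e⟩ := remove_vertex v hr hs (Finset.notMem_erase v V) hL
      rw [hins] at e
      exact e.contractibleSpace

theorem bip (hr : ∀ v, r v v) (hs : ∀ v w, r v w → r w v) :
    ∀ (n : ℕ) (A B : Finset α), B.card = n → Disjoint A B →
    (∀ β ⊆ B, β.Nonempty → (∀ b ∈ β, ∀ b' ∈ β, r b b') →
      ContractibleSpace ↥(real r (A.filter (fun a => ∀ b ∈ β, r b a)))) →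
    Nonempty (ContinuousMap.HomotopyEquiv ↥(real r (A ∪ B)) ↥(real r A)) := by
  intro n
  induction n using Nat.strong_induction_on with
  | _ n ih =>
    intro A B hcard hdis hβ
    rcases B.eq_empty_or_nonempty with rfl | ⟨b, hb⟩
    · rw [Finset.union_empty]
      exact ⟨ContinuousMap.HomotopyEquiv.refl _⟩
    · have hins : insert b (B.erase b) = B := Finset.insert_erase hb
      have hc1 : (B.erase b).card < n := by
        rw [← hcard]; exact Finset.card_erase_lt_of_mem hb
      have hbA : b ∉ A := fun h => (Finset.disjoint_left.1 hdis h) hb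
      have hbV : b ∉ A ∪ B.erase b := by
        rw [Finset.mem_union, not_or]
        exact ⟨hbA, Finset.notMem_erase b B⟩
      have hdis' : Disjoint A (B.erase b) := Finset.disjoint_of_subset_right
        (Finset.erase_subset _ _) hdis
      obtain ⟨e1⟩ := ih _ hc1 A (B.erase b) rfl hdis' (fun β hβB hne hcl =>
        hβ β (hβB.trans (Finset.erase_subset _ _)) hne hcl)
      have hLeq : (A ∪ B.erase b).filter (r b) =
          A.filter (r b) ∪ (B.erase b).filter (r b) := Finset.filter_union _ _ _
      obtain ⟨e2⟩ := ih _ (lt_of_le_of_lt (Finset.card_filter_le (B.erase b) (r b)) hc1)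
        (A.filter (r b)) ((B.erase b).filter (r b)) rfl
        (Finset.disjoint_of_subset_left (Finset.filter_subset _ _)
          (Finset.disjoint_of_subset_right (Finset.filter_subset _ _) hdis')) (by
          intro β hβB hne hcl
          have h1 := hβ (insert b β) (Finset.insert_subset hb (hβB.trans
            ((Finset.filter_subset _ _).trans (Finset.erase_subset _ _))))
            (Finset.insert_nonempty _ _) (by
              intro g hg h hh
              rw [Finset.mem_insert] at hg hh
              rcases hg with rfl | hg
              · rcases hh with rfl | hh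
                · exact hr _
                · exact (Finset.mem_filter.1 (hβB hh)).2
              · rcases hh with rfl | hh
                · exact hs _ _ (Finset.mem_filter.1 (hβB hg)).2
                · exact hcl g hg h hh)
          have heq : A.filter (fun a => ∀ b' ∈ insert b β, r b' a) =
              (A.filter (r b)).filter (fun a => ∀ b' ∈ β, r b' a) := by
            ext a
            simp only [Finset.mem_filter, Finset.mem_insert, forall_eq_or_imp]
            tauto
          rw [heq] at h1
          exact h1)
      have h3 := hβ {b} (Finset.singleton_subset_iff.2 hb) (Finset.singleton_nonempty _) (by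
        intro g hg h hh
        rw [Finset.mem_singleton] at hg hh
        rw [hg, hh]; exact hr b)
      have heq : A.filter (fun a => ∀ b' ∈ ({b} : Finset α), r b' a) = A.filter (r b) := by
        ext a
        simp
      rw [heq] at h3
      have hL : ContractibleSpace ↥(real r ((A ∪ B.erase b).filter (r b))) := by
        rw [hLeq]
        exact e2.contractibleSpace
      obtain ⟨e3⟩ := remove_vertex b hr hs hbV hL
      have hAB : insert b (A ∪ B.erase b) = A ∪ B := by
        rw [← Finset.union_insert, hins]
      rw [hAB] at e3
      exact ⟨e3.trans e1⟩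

end Pool.Agent.WS
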