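import Mathlib

set_option autoImplicit false

/-!
# Chord separation: the down-neighbour lemma

`two_good`: if `C` is a finite family of pairwise chord separated finite sets, all chord
separated from `I`, and `2 ≤ |I|`, then at least two `x ∈ I` are such that `I \ {x}` is
chord separated from every member of `C`.
-/

namespace Pool.Agent.WS

variable {α : Type*}

/-- the strict cyclic order induced by a position function -/
def cyc (f : α → ℤ) (a b c : α) : Prop :=
  (f a < f b ∧ f b < f c) ∨ (f b < f c ∧ f c < f a) ∨ (f c < f a ∧ f a < f b)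

/-- chord separation of two sets -/
def sep (f : α → ℤ) (S T : Finset α) : Prop :=
  ∀ a b c d, a ∈ S → a ∉ T → c ∈ S → c ∉ T → b ∈ T → b ∉ S → d ∈ T → d ∉ S →
    cyc f a b c → cyc f c d a → False

theorem sep_symm {f : α → ℤ} {S T : Finset α} (h : sep f S T) : sep f T S := by
  intro a b c d ha ha' hc hc' hb hb' hd hd' h1 h2
  refine h b c d a hb hb' hd hd' hc hc' ha ha' ?_ ?_
  · clear * - h1 h2; unfold cyc at *; omega
  · clear * - h1 h2; unfold cyc at *; omega

theorem cyc_ne {f : α → ℤ} {a b c : α} (h : cyc f a b c) : a ≠ b ∧ b ≠ c ∧ a ≠ c := by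
  refine ⟨?_, ?_, ?_⟩
  · rintro rfl; unfold cyc at h; omega
  · rintro rfl; unfold cyc at h; omega
  · rintro rfl; unfold cyc at h; omega

theorem cyc_total {f : α → ℤ} (hf : Function.Injective f) {a b c : α} (hab : a ≠ b)
    (hbc : b ≠ c) (hac : a ≠ c) : cyc f a b c ∨ cyc f a c b := by
  have h1 : f a ≠ f b := fun h => hab (hf h)
  have h2 : f b ≠ f c := fun h => hbc (hf h)
  have h3 : f a ≠ f c := fun h => hac (hf h)
  unfold cyc; omega

theorem cyc_flip {f : α → ℤ} (hf : Function.Injective f) {a b c : α} (hab : a ≠ b)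
    (hbc : b ≠ c) (hac : a ≠ c) (h : ¬ cyc f a b c) : cyc f a c b :=
  (cyc_total hf hab hbc hac).resolve_left h

theorem cyc_asymm {f : α → ℤ} {a b c : α} (h : cyc f a b c) (h' : cyc f a c b) : False := by
  unfold cyc at *; omega

/-- `J` kills `x`: `{a,c} ⊆ I \ J` crosses `{x,d}`, `x ∈ I ∩ J`, `d ∈ J \ I` -/
structure kill (f : α → ℤ) (I J : Finset α) (x a c d : α) : Prop where
  xI : x ∈ I
  xJ : x ∈ J
  aI : a ∈ I
  aJ : a ∉ J
  cI : c ∈ I
  cJ : c ∉ J
  dJ : d ∈ J
  dI : d ∉ I
  h1 : cyc f x a d
  h2 : cyc f d c x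

theorem cyc_neg {f : α → ℤ} {a b c : α} : cyc (fun x => - f x) a b c ↔ cyc f c b a := by
  simp only [cyc]; omega

theorem kill_neg {f : α → ℤ} {I J : Finset α} {x a c d : α}
    (h : kill (fun x => - f x) I J x a c d) : kill f I J x c a d := by
  have e1 := cyc_neg.1 h.h1
  have e2 := cyc_neg.1 h.h2
  exact ⟨h.xI, h.xJ, h.cI, h.cJ, h.aI, h.aJ, h.dJ, h.dI, e2, e1⟩

theorem kill_neg' {f : α → ℤ} {I J : Finset α} {x a c d : α}
    (h : kill f I J x c a d) : kill (fun x => - f x) I J x a c d :=
  ⟨h.xI, h.xJ, h.cI, h.cJ, h.aI, h.aJ, h.dJ, h.dI, cyc_neg.2 h.h2, cyc_neg.2 h.h1⟩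

theorem sep_neg {f : α → ℤ} {S T : Finset α} (h : sep f S T) : sep (fun x => - f x) S T := by
  intro a b c d ha ha' hc hc' hb hb' hd hd' h1 h2
  have e1 := cyc_neg.1 h1
  have e2 := cyc_neg.1 h2
  exact h c b a d hc hc' ha ha' hb hb' hd hd' e1 e2

/-- forward-forward steps: the set of new elements grows -/
theorem FF {f : α → ℤ} (hf : Function.Injective f) {I J J' : Finset α} {x y z a a' d d' : α}
    (sIJ : sep f I J) (sJJ : sep f J J')
    (k1 : kill f I J x a z d) (k2 : kill f I J' y a' x d')
    (pJy : ∀ a c d, kill f I J y a c d → a = x ∨ c = x)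
    (pJy' : ∀ a c d, kill f I J' y a c d → a = x ∨ c = x) : d ∈ J' := by
  by_contra hd
  have ha := k1.h1
  have hz := k1.h2
  have ha' := k2.h1
  have hx := k2.h2
  have na'x : a' ≠ x := by
    rintro rfl
    clear * - ha' hx; unfold cyc at *; omega
  have nzx : z ≠ x := (cyc_ne hz).2.1
  have nax : a ≠ x := (cyc_ne ha).1.symm
  -- a witness in (d,x)
  have hw : ∃ w, w ∈ J' ∧ w ∉ J ∧ cyc f d w x := by
    by_cases hzJ : z ∈ J'
    · exact ⟨z, hzJ, k1.cJ, hz⟩
    · have h1 : ¬ cyc f d' z y := by
        intro h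
        rcases pJy' a' z d' ⟨k2.xI, k2.xJ, k2.aI, k2.aJ, k1.cI, hzJ, k2.dJ, k2.dI, ha', h⟩
          with h | h
        · exact na'x h
        · exact nzx h
      have h2 : cyc f d' y z := by
        refine cyc_flip hf (a := d') (b := z) (c := y) ?_ ?_ ?_ h1
        · rintro rfl; exact k2.dI k1.cI
        · rintro rfl; exact hzJ k2.xJ
        · exact (cyc_ne hx).2.2
      have h3 : d' ∉ J := by
        intro h
        refine sIJ z d' a d k1.cI k1.cJ k1.aI k1.aJ h k2.dI k1.dJ k1.dI ?_ ?_
        · clear * - h2 hx hz ha; unfold cyc at *; omega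
        · clear * - hz ha; unfold cyc at *; omega
      refine ⟨d', k2.dJ, h3, ?_⟩
      clear * - h2 hx hz; unfold cyc at *; omega
  obtain ⟨w, wJ', wJ, hw⟩ := hw
  have key : ∀ w', w' ∈ J' → w' ∉ J → cyc f x w' d → False := by
    intro w' h1 h2 h3
    exact sJJ x w' d w k1.xJ k2.cJ k1.dJ hd h1 h2 wJ' wJ h3 hw
  have haJ' : a ∉ J' := fun h => key a h k1.aJ ha
  have h1 : ¬ cyc f d' a y := by
    intro h
    rcases pJy' a' a d' ⟨k2.xI, k2.xJ, k2.aI, k2.aJ, k1.aI, haJ', k2.dJ, k2.dI, ha', h⟩
      with h | h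
    · exact na'x h
    · exact nax h
  have h2 : cyc f d' y a := by
    refine cyc_flip hf (a := d') (b := a) (c := y) ?_ ?_ ?_ h1
    · rintro rfl; exact k2.dI k1.aI
    · rintro rfl; exact haJ' k2.xJ
    · exact (cyc_ne hx).2.2
  have h3 : cyc f x y a := by clear * - h2 hx; unfold cyc at *; omega
  have h4 : cyc f x y d := by clear * - h3 ha; unfold cyc at *; omega
  have h5 : cyc f y a d := by clear * - h3 ha; unfold cyc at *; omega
  have yJ : y ∈ J := by
    by_contra h
    exact key y k2.xJ h h4
  have h6 : cyc f d z y := by clear * - h4 hz; unfold cyc at *; omega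
  rcases pJy a z d ⟨k2.xI, yJ, k1.aI, k1.aJ, k1.cI, k1.cJ, k1.dJ, k1.dI, h5, h6⟩ with h | h
  · exact nax h
  · exact nzx h

/-- a forward step is never followed by a backward step -/
theorem FB {f : α → ℤ} (hf : Function.Injective f) {I J J' : Finset α} {x y z a c' d d' : α}
    (sIJ : sep f I J) (sIJ' : sep f I J') (sJJ : sep f J J')
    (k1 : kill f I J x a z d) (k2 : kill f I J' y x c' d')
    (pJx : ∀ a c d, kill f I J x a c d → a = z ∨ c = z)
    (pJy : ∀ a c d, kill f I J y a c d → a = x ∨ c = x)
    (pJy' : ∀ a c d, kill f I J' y a c d → a = x ∨ c = x) : False := by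
  have ha := k1.h1
  have hz := k1.h2
  have hx := k2.h1
  have hc' := k2.h2
  have nc'x : c' ≠ x := by
    rintro rfl
    clear * - hc' hx; unfold cyc at *; omega
  have nzx : z ≠ x := (cyc_ne hz).2.1
  have nax : a ≠ x := (cyc_ne ha).1.symm
  have naz : a ≠ z := by
    rintro rfl
    clear * - ha hz; unfold cyc at *; omega
  have xd'y : cyc f x d' y := by clear * - hx; unfold cyc at *; omega
  have ndy : d ≠ y := by rintro rfl; exact k1.dI k2.xI
  rcases cyc_total hf ndy (cyc_ne hx).1 (cyc_ne hz).2.2 with hy | hy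
  · -- case 1 : y ∈ (d,x)
    by_cases hcase : z ≠ y ∧ cyc f d z y
    · obtain ⟨nzy, hzy⟩ := hcase
      have yJ : y ∈ J := by
        by_contra h
        rcases pJx a y d ⟨k1.xI, k1.xJ, k1.aI, k1.aJ, k2.xI, h, k1.dJ, k1.dI, ha, hy⟩ with h | h
        · exact naz h
        · exact nzy h.symm
      have h5 : cyc f y a d := by clear * - hy ha; unfold cyc at *; omega
      rcases pJy a z d ⟨k2.xI, yJ, k1.aI, k1.aJ, k1.cI, k1.cJ, k1.dJ, k1.dI, h5, hzy⟩ with h | h
      · exact nax h
      · exact nzx h
    · have hzy : z = y ∨ cyc f y z x := by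
        by_cases h : z = y
        · exact Or.inl h
        · right
          have h' : ¬ cyc f d z y := fun h' => hcase ⟨h, h'⟩
          have h2 := cyc_flip hf (cyc_ne hz).1 h (cyc_ne hy).1 h'
          clear * - h2 hz; unfold cyc at *; omega
      have zJ' : z ∈ J' := by
        by_contra hzJ
        rcases hzy with h | h
        · rw [h] at hzJ; exact hzJ k2.xJ
        · have e : cyc f y z d' := by clear * - h hx; unfold cyc at *; omega
          rcases pJy' z c' d' ⟨k2.xI, k2.xJ, k1.cI, hzJ, k2.cI, k2.cJ, k2.dJ, k2.dI, e, hc'⟩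
            with h | h
          · exact nzx h
          · exact nc'x h
      have dJ' : d ∈ J' := by
        by_contra hd
        have key : ∀ w', w' ∈ J' → w' ∉ J → cyc f x w' d → False := by
          intro w' h1 h2 h3
          exact sJJ x w' d z k1.xJ k2.aJ k1.dJ hd h1 h2 zJ' k1.cJ h3 hz
        have haJ' : a ∉ J' := fun h => key a h k1.aJ ha
        have h1 : ¬ cyc f y a d' := by
          intro h
          rcases pJy' a c' d' ⟨k2.xI, k2.xJ, k1.aI, haJ', k2.cI, k2.cJ, k2.dJ, k2.dI, h, hc'⟩
            with h | h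
          · exact nax h
          · exact nc'x h
        have h2 : cyc f y d' a := by
          refine cyc_flip hf (a := y) (b := a) (c := d') ?_ ?_ ?_ h1
          · rintro rfl; exact haJ' k2.xJ
          · rintro rfl; exact k2.dI k1.aI
          · exact (cyc_ne hx).2.2
        have h3 : cyc f x d' a := by clear * - h2 hx; unfold cyc at *; omega
        have h4 : cyc f x d' d := by clear * - h3 ha; unfold cyc at *; omega
        have h5 : d' ∈ J := by
          by_contra h
          exact key d' k2.dJ h h4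
        refine sIJ z d' a d k1.cI k1.cJ k1.aI k1.aJ h5 k2.dI k1.dJ k1.dI ?_ ?_
        · clear * - h3 ha hz; unfold cyc at *; omega
        · clear * - ha hz; unfold cyc at *; omega
      have nc'z : c' ≠ z := by
        rintro rfl
        rcases hzy with h | h
        · exact (cyc_ne hc').2.1 h
        · clear * - h hc' hx; unfold cyc at *; omega
      have c'zx : cyc f c' z x := by
        rcases hzy with h | h
        · rw [h]; clear * - hc' hx; unfold cyc at *; omega
        · clear * - h hc' hx; unfold cyc at *; omega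
      have xd'c' : cyc f x d' c' := by clear * - hc' hx; unfold cyc at *; omega
      have d'J : d' ∈ J := by
        by_contra hd'
        have hc'J : c' ∉ J := by
          intro h
          exact sJJ x d' c' z k1.xJ k2.aJ h k2.cJ k2.dJ hd' zJ' k1.cJ xd'c' c'zx
        have h1 : ¬ cyc f d c' x := by
          intro h
          rcases pJx a c' d ⟨k1.xI, k1.xJ, k1.aI, k1.aJ, k2.cI, hc'J, k1.dJ, k1.dI, ha, h⟩
            with h | h
          · exact naz h
          · exact nc'z h
        have h2 : cyc f d x c' := by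
          refine cyc_flip hf ?_ nc'x (cyc_ne hz).2.2 h1
          rintro rfl; exact k1.dI k2.cI
        refine sIJ' x d' c' d k1.xI k2.aJ k2.cI k2.cJ k2.dJ k2.dI dJ' k1.dI xd'c' ?_
        clear * - h2; unfold cyc at *; omega
      -- orientation with respect to d
      have xdc' : cyc f x d c' := by
        have ndc' : d ≠ c' := by rintro rfl; exact k1.dI k2.cI
        rcases cyc_total hf (cyc_ne hz).2.2.symm ndc' nc'x.symm with h | h
        · exact h
        · exfalso
          refine sIJ' x d' c' d k1.xI k2.aJ k2.cI k2.cJ k2.dJ k2.dI dJ' k1.dI xd'c' ?_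
          clear * - h; unfold cyc at *; omega
      have dc'y : cyc f d c' y := by clear * - xdc' hc' hx; unfold cyc at *; omega
      have yxd : cyc f y x d := by clear * - hy; unfold cyc at *; omega
      have aJ' : a ∈ J' := by
        by_contra h
        have e : cyc f y a d := by clear * - ha hy; unfold cyc at *; omega
        rcases pJy' a c' d ⟨k2.xI, k2.xJ, k1.aI, h, k2.cI, k2.cJ, dJ', k1.dI, e, dc'y⟩
          with h | h
        · exact nax h
        · exact nc'x h
      have c'J : c' ∈ J := by
        by_contra h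
        have e : cyc f d c' x := by clear * - dc'y hy; unfold cyc at *; omega
        rcases pJx a c' d ⟨k1.xI, k1.xJ, k1.aI, k1.aJ, k2.cI, h, k1.dJ, k1.dI, ha, e⟩
          with h | h
        · exact naz h
        · exact nc'z h
      refine sJJ x a c' z k1.xJ k2.aJ c'J k2.cJ aJ' k1.aJ zJ' k1.cJ ?_ c'zx
      clear * - ha xdc'; unfold cyc at *; omega
  · -- case 2 : y ∈ (x,d)
    have yzd' : cyc f y z d' := by clear * - hy hz hx; unfold cyc at *; omega
    have zJ' : z ∈ J' := by
      by_contra hzJ
      rcases pJy' z c' d' ⟨k2.xI, k2.xJ, k1.cI, hzJ, k2.cI, k2.cJ, k2.dJ, k2.dI, yzd', hc'⟩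
        with h | h
      · exact nzx h
      · exact nc'x h
    have dJ' : d ∈ J' := by
      by_contra hd
      have key : ∀ w', w' ∈ J' → w' ∉ J → cyc f x w' d → False := by
        intro w' h1 h2 h3
        exact sJJ x w' d z k1.xJ k2.aJ k1.dJ hd h1 h2 zJ' k1.cJ h3 hz
      have xd'd : cyc f x d' d := by clear * - hy xd'y; unfold cyc at *; omega
      have d'J : d' ∈ J := by
        by_contra h
        exact key d' k2.dJ h xd'd
      have h1 : ¬ cyc f d' a d := by
        intro h
        refine sIJ a d z d' k1.aI k1.aJ k1.cI k1.cJ k1.dJ k1.dI d'J k2.dI ?_ ?_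
        · clear * - ha hz; unfold cyc at *; omega
        · clear * - h hz xd'd ha; unfold cyc at *; omega
      have h2 : cyc f d' d a := by
        refine cyc_flip hf (a := d') (b := a) (c := d) ?_ ?_ ?_ h1
        · rintro rfl; exact k2.dI k1.aI
        · rintro rfl; exact k1.dI k1.aI
        · exact (cyc_ne xd'd).2.1
      have e : cyc f y a d' := by clear * - ha hy h2 xd'y; unfold cyc at *; omega
      have aJ' : a ∈ J' := by
        by_contra h
        rcases pJy' a c' d' ⟨k2.xI, k2.xJ, k1.aI, h, k2.cI, k2.cJ, k2.dJ, k2.dI, e, hc'⟩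
          with h | h
        · exact nax h
        · exact nc'x h
      exact key a aJ' k1.aJ ha
    refine sIJ' x d' c' d k1.xI k2.aJ k2.cI k2.cJ k2.dJ k2.dI dJ' k1.dI ?_ ?_
    · clear * - hc' hx; unfold cyc at *; omega
    · clear * - hc' hx hy; unfold cyc at *; omega

end Pool.Agent.WS
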