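import Mathlib

set_option autoImplicit false

/-!
# Realizations of flag complexes: removing a vertex with contractible link
-/

namespace Pool.Agent.WS

open Classical Set Topology

section general

variable {E : Type*} [TopologicalSpace E]

theorem homotopic_of {F : Type*} [TopologicalSpace F] {X : Set E} {Y : Set F} (f g : C(↥X, ↥Y))
    (J : ℝ × E → F)
    (hJ : ContinuousOn J (Icc (0:ℝ) 1 ×ˢ X)) (hm : ∀ s ∈ Icc (0:ℝ) 1, ∀ x ∈ X, J (s, x) ∈ Y)
    (h0 : ∀ x : ↥X, J (0, x) = f x) (h1 : ∀ x : ↥X, J (1, x) = g x) : f.Homotopic g := by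
  have hc : Continuous (fun p : unitInterval × ↥X =>
      (⟨J (p.1, p.2), hm p.1 p.1.2 p.2 p.2.2⟩ : ↥Y)) := by
    refine Continuous.subtype_mk ?_ _
    have : Continuous (fun p : unitInterval × ↥X => ((p.1 : ℝ), (p.2 : E))) := by fun_prop
    exact hJ.comp_continuous this (fun p => ⟨p.1.2, p.2.2⟩)
  refine ⟨⟨⟨_, hc⟩, ?_, ?_⟩⟩
  · intro x
    apply Subtype.ext
    simpa using h0 x
  · intro x
    apply Subtype.ext
    simpa using h1 x

theorem contr_data [Inhabited E] {S : Set E} (h : ContractibleSpace ↥S) :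
    ∃ (H : ℝ × E → E) (c : E), c ∈ S ∧ ContinuousOn H (univ ×ˢ S) ∧
      (∀ u, ∀ x ∈ S, H (u, x) ∈ S) ∧ (∀ x ∈ S, H (0, x) = x) ∧ (∀ x ∈ S, H (1, x) = c) := by
  obtain ⟨p, ⟨F⟩⟩ := id_nullhomotopic ↥S
  refine ⟨fun q => if hq : q.2 ∈ S then
    (F (projIcc (0:ℝ) 1 zero_le_one q.1, ⟨q.2, hq⟩) : ↥S).1 else default, p.1, p.2,
    ?_, ?_, ?_, ?_⟩
  · rw [continuousOn_iff_continuous_domRestrict]
    have : ((univ ×ˢ S).domRestrict (fun q : ℝ × E => if hq : q.2 ∈ S then
        (F (projIcc (0:ℝ) 1 zero_le_one q.1, ⟨q.2, hq⟩) : ↥S).1 else default)) =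
        fun q => (F (projIcc (0:ℝ) 1 zero_le_one q.1.1, ⟨q.1.2, q.2.2⟩) : ↥S).1 := by
      funext q
      rw [domRestrict_apply]
      exact dif_pos q.2.2
    rw [this]
    have h2 : Continuous (fun q : ↥((univ : Set ℝ) ×ˢ S) =>
        ((projIcc (0:ℝ) 1 zero_le_one q.1.1, ⟨q.1.2, q.2.2⟩) : unitInterval × ↥S)) := by
      refine Continuous.prodMk ?_ ?_
      · exact continuous_projIcc.comp (continuous_fst.comp continuous_subtype_val)
      · exact Continuous.subtype_mk (continuous_snd.comp continuous_subtype_val) _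
    exact continuous_subtype_val.comp (F.continuous_toFun.comp h2)
  · intro u x hx
    simp only
    rw [dif_pos hx]
    exact Subtype.coe_prop _
  · intro x hx
    simp only
    rw [dif_pos hx]
    rw [projIcc_left]
    exact congrArg Subtype.val (F.apply_zero ⟨x, hx⟩)
  · intro x hx
    simp only
    rw [dif_pos hx]
    rw [projIcc_right]
    exact congrArg Subtype.val (F.apply_one ⟨x, hx⟩)

end general

variable {α : Type*} [DecidableEq α]

/-- the realization of the flag complex on the finite vertex set `V` with compatibility `r` -/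
def real (r : α → α → Prop) (V : Finset α) : Set (α → ℝ) :=
  {x | (∀ v, 0 ≤ x v) ∧ (∀ v, v ∉ V → x v = 0) ∧ ∑ v ∈ V, x v = 1 ∧
    ∀ v w, x v ≠ 0 → x w ≠ 0 → r v w}

theorem isClosed_real (r : α → α → Prop) (V : Finset α) : IsClosed (real r V) := by
  have : real r V = (⋂ v, {x : α → ℝ | 0 ≤ x v}) ∩ (⋂ v, ⋂ (_ : v ∉ V), {x : α → ℝ | x v = 0}) ∩
      {x : α → ℝ | ∑ v ∈ V, x v = 1} ∩
      (⋂ v, ⋂ w, ⋂ (_ : ¬ r v w), {x : α → ℝ | x v = 0 ∨ x w = 0}) := by
    ext x
    simp only [real, mem_ofPred_eq, mem_inter_iff, mem_iInter]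
    constructor
    · rintro ⟨h1, h2, h3, h4⟩
      refine ⟨⟨⟨h1, h2⟩, h3⟩, ?_⟩
      intro v w hvw
      by_contra hc
      push Not at hc
      exact hvw (h4 v w hc.1 hc.2)
    · rintro ⟨⟨⟨h1, h2⟩, h3⟩, h4⟩
      refine ⟨h1, h2, h3, ?_⟩
      intro v w hv hw
      by_contra hc
      rcases h4 v w hc with h | h
      · exact hv h
      · exact hw h
  rw [this]
  refine IsClosed.inter (IsClosed.inter (IsClosed.inter ?_ ?_) ?_) ?_
  · exact isClosed_iInter fun v => isClosed_le continuous_const (continuous_apply v)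
  · exact isClosed_iInter fun v => isClosed_iInter fun _ =>
      isClosed_eq (continuous_apply v) continuous_const
  · exact isClosed_eq (continuous_finsetSum _ fun v _ => continuous_apply v) continuous_const
  · refine isClosed_iInter fun v => isClosed_iInter fun w => isClosed_iInter fun _ => ?_
    exact IsClosed.union (isClosed_eq (continuous_apply v) continuous_const)
      (isClosed_eq (continuous_apply w) continuous_const)

theorem mem_real_of_supp {r : α → α → Prop} {V : Finset α} {x y : α → ℝ} (hx : x ∈ real r V)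
    (h0 : ∀ w, 0 ≤ y w) (hs : ∀ w, y w ≠ 0 → x w ≠ 0) (hsum : ∑ w ∈ V, y w = 1) :
    y ∈ real r V := by
  refine ⟨h0, ?_, hsum, ?_⟩
  · intro v hv
    by_contra h
    exact hs v h (hx.2.1 v hv)
  · intro v w hv hw
    exact hx.2.2.2 v w (hs v hv) (hs w hw)

theorem real_mono {r : α → α → Prop} {V W : Finset α} (h : V ⊆ W) : real r V ⊆ real r W := by
  rintro x ⟨h1, h2, h3, h4⟩
  refine ⟨h1, fun v hv => h2 v fun h' => hv (h h'), ?_, h4⟩
  rw [← h3]
  symm
  exact Finset.sum_subset h fun v _ hv => h2 v hv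

/-- cone points -/
theorem cone_mem {r : α → α → Prop} (hr : ∀ v, r v v) (hs : ∀ v w, r v w → r w v)
    {V : Finset α} {v : α} (hv : v ∉ V) {y : α → ℝ} (hy : y ∈ real r (V.filter (r v)))
    {τ : ℝ} (h0 : 0 ≤ τ) (h1 : τ ≤ 1) :
    (1 - τ) • y + τ • (Pi.single v (1:ℝ) : α → ℝ) ∈ real r (insert v V) := by
  obtain ⟨hy0, hy1, hy2, hy3⟩ := hy
  have hyv : y v = 0 := hy1 v (by rw [Finset.mem_filter]; exact fun h => hv h.1)
  have hsV : ∑ w ∈ V, y w = 1 := by
    rw [← hy2]
    symm
    exact Finset.sum_subset (Finset.filter_subset _ _) fun w _ hw => hy1 w hw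
  have hval : ∀ w, ((1 - τ) • y + τ • (Pi.single v (1:ℝ) : α → ℝ)) w =
      (1 - τ) * y w + τ * (if w = v then 1 else 0) := by
    intro w
    simp [Pi.single_apply]
  refine ⟨?_, ?_, ?_, ?_⟩
  · intro w
    rw [hval]
    have := hy0 w
    have h2 : (0:ℝ) ≤ (if w = v then 1 else 0) := by split_ifs <;> norm_num
    have h3 : 0 ≤ 1 - τ := by linarith
    positivity
  · intro w hw
    rw [hval]
    rw [Finset.mem_insert, not_or] at hw
    rw [if_neg hw.1, hy1 w (by rw [Finset.mem_filter]; exact fun h => hw.2 h.1)]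
    ring
  · rw [Finset.sum_insert hv]
    rw [hval, hyv, if_pos rfl]
    have : ∑ w ∈ V, ((1 - τ) • y + τ • (Pi.single v (1:ℝ) : α → ℝ)) w = (1 - τ) * ∑ w ∈ V, y w := by
      rw [Finset.mul_sum]
      refine Finset.sum_congr rfl ?_
      intro w hw
      rw [hval, if_neg (by rintro rfl; exact hv hw)]
      ring
    rw [this, hsV]
    ring
  · have key : ∀ w, ((1 - τ) • y + τ • (Pi.single v (1:ℝ) : α → ℝ)) w ≠ 0 → w = v ∨ y w ≠ 0 := by
      intro w hw
      by_contra hc
      push Not at hc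
      rw [hval, hc.2, if_neg hc.1] at hw
      apply hw
      ring
    have hrv : ∀ w, y w ≠ 0 → r v w := by
      intro w hw
      by_contra hc
      exact hw (hy1 w (by rw [Finset.mem_filter]; exact fun h => hc h.2))
    intro w w' hw hw'
    rcases key w hw with rfl | h
    · rcases key w' hw' with rfl | h'
      · exact hr _
      · exact hrv w' h'
    · rcases key w' hw' with rfl | h'
      · exact hs _ _ (hrv w h)
      · exact hy3 w w' h h'

end Pool.Agent.WS
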