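import Mathlib

set_option autoImplicit false

namespace Pool.Agent.WS

open Classical

/-- cyclic intervals of length `m` in `{0..n-1}` -/
def isInt (m n : ℕ) (S : Finset ℕ) : Prop :=
  ∃ i, i < n ∧ S = (Finset.range m).image (fun j => (i + j) % n)

/-- arithmetic description of membership -/
def arc (m n i z : ℕ) : Prop := (i ≤ z ∧ z < i + m) ∨ z + n < i + m

theorem mem_int {m n i z : ℕ} (hi : i < n) (hm : m ≤ n) :
    z ∈ (Finset.range m).image (fun j => (i + j) % n) ↔ z < n ∧ arc m n i z := by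
  unfold arc
  rw [Finset.mem_image]
  constructor
  · rintro ⟨j, hj, rfl⟩
    rw [Finset.mem_range] at hj
    have hn : 0 < n := by omega
    refine ⟨Nat.mod_lt _ hn, ?_⟩
    by_cases h : i + j < n
    · rw [Nat.mod_eq_of_lt h]; omega
    · have : (i + j) % n = i + j - n := by
        rw [Nat.mod_eq_sub_mod (by omega), Nat.mod_eq_of_lt (by omega)]
      rw [this]; omega
  · rintro ⟨hz, h | h⟩
    · refine ⟨z - i, Finset.mem_range.2 (by omega), ?_⟩
      show (i + (z - i)) % n = z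
      rw [show i + (z - i) = z by omega, Nat.mod_eq_of_lt hz]
    · refine ⟨z + n - i, Finset.mem_range.2 (by omega), ?_⟩
      show (i + (z + n - i)) % n = z
      rw [show i + (z + n - i) = z + n by omega, Nat.add_mod_right, Nat.mod_eq_of_lt hz]

theorem isInt_iff {m n : ℕ} (hm : m ≤ n) {S : Finset ℕ} :
    isInt m n S ↔ ∃ i, i < n ∧ ∀ z, z ∈ S ↔ z < n ∧ arc m n i z := by
  unfold isInt
  constructor
  · rintro ⟨i, hi, rfl⟩
    exact ⟨i, hi, fun z => mem_int hi hm⟩
  · rintro ⟨i, hi, h⟩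
    refine ⟨i, hi, ?_⟩
    ext z
    rw [h z, mem_int hi hm]

/-- if two different deletions of `I` are intervals then `I` is an interval -/
theorem int_down {m n x y : ℕ} {I : Finset ℕ} (h2 : 2 ≤ m) (hmn : m + 1 < n)
    (hx : x ∈ I) (hy : y ∈ I) (hxy : x ≠ y) (hxn : x < n) (hyn : y < n)
    (h1 : isInt m n (I.erase x)) (h1' : isInt m n (I.erase y)) : isInt (m + 1) n I := by
  rw [isInt_iff (by omega)] at h1 h1' ⊢
  obtain ⟨i, hi, h1⟩ := h1
  obtain ⟨i', hi', h1'⟩ := h1'
  simp only [Finset.mem_erase] at h1 h1'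
  have P1 : ∀ z, z ≠ x → z ≠ y → ((z < n ∧ arc m n i z) ↔ (z < n ∧ arc m n i' z)) := by
    intro z hzx hzy
    rw [← h1 z, ← h1' z]
    tauto
  have P2 : arc m n i' x := ((h1' x).1 ⟨hxy, hx⟩).2
  have P3 : ¬ arc m n i x := fun h => ((h1 x).2 ⟨hxn, h⟩).1 rfl
  have P4 : arc m n i y := ((h1 y).1 ⟨hxy.symm, hy⟩).2
  have P5 : ¬ arc m n i' y := fun h => ((h1' y).2 ⟨hyn, h⟩).1 rfl
  -- neighbours of x
  have key : (x + 1 = i ∨ (x + 1 = n ∧ i = 0)) ∨ (x = i + m ∨ x + n = i + m) := by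
    have Q1 := P1 (x + 1)
    have Q2 := P1 0
    have Q3 := P1 (x - 1)
    have Q4 := P1 (n - 1)
    clear P1 h1 h1' hx hy
    unfold arc at *
    omega
  have hI : ∀ z, z ∈ I ↔ (z = x ∨ (z < n ∧ arc m n i z)) := by
    intro z
    rw [← h1 z]
    constructor
    · intro h
      by_cases hz : z = x
      · exact Or.inl hz
      · exact Or.inr ⟨hz, h⟩
    · rintro (rfl | h)
      · exact hx
      · exact h.2
  rcases key with (h | h) | h
  · refine ⟨x, hxn, ?_⟩
    intro z
    rw [hI z]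
    unfold arc at *
    omega
  · refine ⟨x, hxn, ?_⟩
    intro z
    rw [hI z]
    unfold arc at *
    omega
  · refine ⟨i, hi, ?_⟩
    intro z
    rw [hI z]
    unfold arc at *
    omega

/-- if two different insertions into `I` are intervals then `I` is an interval -/
theorem int_up {m n x y : ℕ} {I : Finset ℕ} (h2 : 1 ≤ m) (hmn : m + 1 + 2 ≤ n)
    (hx : x ∉ I) (hy : y ∉ I) (hxy : x ≠ y) (hxn : x < n) (hyn : y < n)
    (h1 : isInt (m + 1) n (insert x I)) (h1' : isInt (m + 1) n (insert y I)) :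
    isInt m n I := by
  rw [isInt_iff (by omega)] at h1 h1' ⊢
  obtain ⟨i, hi, h1⟩ := h1
  obtain ⟨i', hi', h1'⟩ := h1'
  simp only [Finset.mem_insert] at h1 h1'
  have P1 : ∀ z, z ≠ x → z ≠ y → ((z < n ∧ arc (m + 1) n i z) ↔ (z < n ∧ arc (m + 1) n i' z)) := by
    intro z hzx hzy
    rw [← h1 z, ← h1' z]
    tauto
  have P2 : arc (m + 1) n i x := ((h1 x).1 (Or.inl rfl)).2
  have P3 : ¬ arc (m + 1) n i' x := fun h => by
    rcases (h1' x).2 ⟨hxn, h⟩ with h | h
    · exact hxy h
    · exact hx h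
  have P4 : arc (m + 1) n i' y := ((h1' y).1 (Or.inl rfl)).2
  have P5 : ¬ arc (m + 1) n i y := fun h => by
    rcases (h1 y).2 ⟨hyn, h⟩ with h | h
    · exact hxy h.symm
    · exact hy h
  have key : x = i ∨ (x = i + m ∨ x + n = i + m) := by
    have Q1 := P1 (x + 1)
    have Q2 := P1 0
    have Q3 := P1 (x - 1)
    have Q4 := P1 (n - 1)
    clear P1 h1 h1' hx hy
    unfold arc at *
    omega
  have hI : ∀ z, z ∈ I ↔ (z ≠ x ∧ (z < n ∧ arc (m + 1) n i z)) := by
    intro z
    rw [← h1 z]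
    constructor
    · intro h
      exact ⟨by rintro rfl; exact hx h, Or.inr h⟩
    · rintro ⟨hz, h | h⟩
      · exact absurd h hz
      · exact h
  rcases key with h | h
  · by_cases hn : i + 1 = n
    · refine ⟨0, by omega, ?_⟩
      intro z
      rw [hI z]
      unfold arc at *
      omega
    · refine ⟨i + 1, by omega, ?_⟩
      intro z
      rw [hI z]
      unfold arc at *
      omega
  · refine ⟨i, hi, ?_⟩
    intro z
    rw [hI z]
    unfold arc at *
    omega

end Pool.Agent.WS
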