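import Pool.Agent.WS.Crit

set_option autoImplicit false

namespace Pool.Agent.WS

open Classical Set Topology

variable {α β : Type*}

/-- transporting a realization along an embedding of vertex sets -/
theorem real_map (φ : α ↪ β) {r : α → α → Prop} {r' : β → β → Prop} (V : Finset α)
    (h : ∀ a ∈ V, ∀ b ∈ V, r a b ↔ r' (φ a) (φ b)) :
    Nonempty (↥(real r V) ≃ₜ ↥(real r' (V.map φ))) := by
  have hext : ∀ (x : α → ℝ) (a : α), Function.extend (⇑φ) x (0 : β → ℝ) (φ a) = x a := fun x a =>
    φ.injective.extend_apply x (0 : β → ℝ) a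
  have hext0 : ∀ (x : α → ℝ) (b : β), (¬ ∃ a, φ a = b) → Function.extend (⇑φ) x (0 : β → ℝ) b = 0 :=
    fun x b hb => Function.extend_apply' x (0 : β → ℝ) b hb
  refine ⟨{
    toFun := fun x => ⟨Function.extend (⇑φ) x.1 (0 : β → ℝ), ?_⟩
    invFun := fun y => ⟨fun a => y.1 (φ a), ?_⟩
    left_inv := ?_
    right_inv := ?_
    continuous_toFun := ?_
    continuous_invFun := ?_ }⟩
  · obtain ⟨x, hx0, hx1, hx2, hx3⟩ := x
    simp only
    have hV : ∀ b, Function.extend (⇑φ) x (0 : β → ℝ) b ≠ 0 → ∃ a ∈ V, φ a = b ∧ x a ≠ 0 := by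
      intro b hb
      by_cases hab : ∃ a, φ a = b
      · obtain ⟨a, rfl⟩ := hab
        rw [hext] at hb
        refine ⟨a, ?_, rfl, hb⟩
        by_contra ha
        exact hb (hx1 a ha)
      · exact absurd (hext0 x b hab) hb
    refine ⟨?_, ?_, ?_, ?_⟩
    · intro b
      by_cases hab : ∃ a, φ a = b
      · obtain ⟨a, rfl⟩ := hab
        rw [hext]; exact hx0 a
      · rw [hext0 x b hab]
    · intro b hb
      by_contra hne
      obtain ⟨a, ha, rfl, -⟩ := hV b hne
      exact hb (Finset.mem_map_of_mem φ ha)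
    · rw [Finset.sum_map]
      rw [← hx2]
      exact Finset.sum_congr rfl fun a _ => hext x a
    · intro b b' hb hb'
      obtain ⟨a, ha, rfl, hxa⟩ := hV b hb
      obtain ⟨a', ha', rfl, hxa'⟩ := hV b' hb'
      exact (h a ha a' ha').1 (hx3 a a' hxa hxa')
  · obtain ⟨y, hy0, hy1, hy2, hy3⟩ := y
    simp only
    have hV : ∀ a, y (φ a) ≠ 0 → a ∈ V := by
      intro a ha
      by_contra hne
      apply ha
      apply hy1
      rw [Finset.mem_map']
      exact hne
    refine ⟨fun a => hy0 _, ?_, ?_, ?_⟩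
    · intro a ha
      by_contra hne
      exact ha (hV a hne)
    · rw [Finset.sum_map] at hy2
      exact hy2
    · intro a a' ha ha'
      exact (h a (hV a ha) a' (hV a' ha')).2 (hy3 _ _ ha ha')
  · intro x
    apply Subtype.ext
    funext a
    exact hext x.1 a
  · intro y
    apply Subtype.ext
    funext b
    by_cases hab : ∃ a, φ a = b
    · obtain ⟨a, rfl⟩ := hab
      exact hext _ a
    · show Function.extend (⇑φ) (fun a => y.1 (φ a)) (0 : β → ℝ) b = y.1 b
      rw [hext0 _ b hab]
      symm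
      apply y.2.2.1
      intro hb
      obtain ⟨a, _, ha⟩ := Finset.mem_map.1 hb
      exact hab ⟨a, ha⟩
  · refine Continuous.subtype_mk ?_ _
    refine continuous_pi fun b => ?_
    by_cases hab : ∃ a, φ a = b
    · obtain ⟨a, rfl⟩ := hab
      have : (fun x : ↥(real r V) => Function.extend (⇑φ) x.1 (0 : β → ℝ) (φ a)) = fun x => x.1 a := by
        funext x; exact hext x.1 a
      rw [this]
      exact (continuous_apply a).comp continuous_subtype_val
    · have : (fun x : ↥(real r V) => Function.extend (⇑φ) x.1 (0 : β → ℝ) b) = fun x => 0 := by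
        funext x; exact hext0 x.1 b hab
      rw [this]
      exact continuous_const
  · refine Continuous.subtype_mk ?_ _
    refine continuous_pi fun a => ?_
    exact (continuous_apply (φ a)).comp continuous_subtype_val

/-- the realization of the statement is the realization `real` -/
theorem real_statement {α : Type*} (r : α → α → Prop) (W : Finset α) :
    Nonempty ({x : (↥W → ℝ) // (∀ v, 0 ≤ x v) ∧ (∑ v, x v) = 1 ∧
      ∀ v w : ↥W, x v ≠ 0 → x w ≠ 0 → r v.1 w.1} ≃ₜ ↥(real r W)) := by
  have h1 : Nonempty (↥(real (fun v w : ↥W => r v.1 w.1) Finset.univ) ≃ₜ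
      ↥(real r ((Finset.univ : Finset ↥W).map (Function.Embedding.subtype _)))) :=
    real_map (Function.Embedding.subtype _) _ (fun a _ b _ => Iff.rfl)
  have h2 : (Finset.univ : Finset ↥W).map (Function.Embedding.subtype _) = W := by
    ext a
    simp
  rw [h2] at h1
  obtain ⟨e⟩ := h1
  refine ⟨Homeomorph.trans (Homeomorph.setCongr ?_) e⟩
  ext x
  simp only [real, mem_ofPred_eq]
  constructor
  · rintro ⟨a, b, c⟩
    exact ⟨a, fun v hv => absurd (Finset.mem_univ v) hv, b, c⟩
  · rintro ⟨a, _, b, c⟩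
    exact ⟨a, b, c⟩

end Pool.Agent.WS
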