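import Pool.Agent.WS.TwoGood
import Pool.Agent.WS.Transfer
import Pool.Agent.WS.Interval

set_option autoImplicit false

namespace Pool.Agent.WS

open Classical Set Topology

/-- weak separation, as in the statement -/
def R (S T : Finset ℕ) : Prop :=
  ¬ ∃ a b c d : ℕ, a < b ∧ b < c ∧ c < d ∧
    ((a ∈ S \ T ∧ b ∈ T \ S ∧ c ∈ S \ T ∧ d ∈ T \ S) ∨
     (a ∈ T \ S ∧ b ∈ S \ T ∧ c ∈ T \ S ∧ d ∈ S \ T))

/-- position function -/
def pos (x : ℕ) : ℤ := x

theorem pos_inj : Function.Injective pos := fun a b h => by unfold pos at h; exact_mod_cast h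

theorem R_iff (S T : Finset ℕ) : R S T ↔ sep pos S T := by
  unfold R sep
  simp only [Finset.mem_sdiff]
  constructor
  · intro h a b c d ha ha' hc hc' hb hb' hd hd' h1 h2
    have h3 : (a < b ∧ b < c ∧ c < d) ∨ (b < c ∧ c < d ∧ d < a) ∨ (c < d ∧ d < a ∧ a < b) ∨
        (d < a ∧ a < b ∧ b < c) := by
      clear * - h1 h2
      unfold cyc pos at *
      omega
    apply h
    rcases h3 with h3 | h3 | h3 | h3
    · exact ⟨a, b, c, d, h3.1, h3.2.1, h3.2.2, Or.inl ⟨⟨ha, ha'⟩, ⟨hb, hb'⟩, ⟨hc, hc'⟩, ⟨hd, hd'⟩⟩⟩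
    · exact ⟨b, c, d, a, h3.1, h3.2.1, h3.2.2, Or.inr ⟨⟨hb, hb'⟩, ⟨hc, hc'⟩, ⟨hd, hd'⟩, ⟨ha, ha'⟩⟩⟩
    · exact ⟨c, d, a, b, h3.1, h3.2.1, h3.2.2, Or.inl ⟨⟨hc, hc'⟩, ⟨hd, hd'⟩, ⟨ha, ha'⟩, ⟨hb, hb'⟩⟩⟩
    · exact ⟨d, a, b, c, h3.1, h3.2.1, h3.2.2, Or.inr ⟨⟨hd, hd'⟩, ⟨ha, ha'⟩, ⟨hb, hb'⟩, ⟨hc, hc'⟩⟩⟩
  · rintro h ⟨a, b, c, d, hab, hbc, hcd, ⟨ha, hb, hc, hd⟩ | ⟨ha, hb, hc, hd⟩⟩
    · refine h a b c d ha.1 ha.2 hc.1 hc.2 hb.1 hb.2 hd.1 hd.2 ?_ ?_
      · unfold cyc pos; omega
      · unfold cyc pos; omega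
    · refine h b c d a hb.1 hb.2 hd.1 hd.2 hc.1 hc.2 ha.1 ha.2 ?_ ?_
      · unfold cyc pos; omega
      · unfold cyc pos; omega

theorem R_refl (S : Finset ℕ) : R S S := by
  rintro ⟨a, b, c, d, -, -, -, ⟨h, -⟩ | ⟨h, -⟩⟩ <;> simp at h

theorem R_symm (S T : Finset ℕ) (h : R S T) : R T S := by
  rw [R_iff] at h ⊢
  exact sep_symm h

/-- sets differing by at most one element on one side are separated -/
theorem R_of_le_one {S T : Finset ℕ} (x : ℕ) (h : S \ T ⊆ {x}) : R S T := by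
  rintro ⟨a, b, c, d, hab, hbc, hcd, ⟨ha, hb, hc, hd⟩ | ⟨ha, hb, hc, hd⟩⟩
  · have h1 := Finset.mem_singleton.1 (h ha)
    have h2 := Finset.mem_singleton.1 (h hc)
    omega
  · have h1 := Finset.mem_singleton.1 (h hb)
    have h2 := Finset.mem_singleton.1 (h hd)
    omega

/-- the vertex set of the reduced complex -/
noncomputable def W (k n : ℕ) : Finset (Finset ℕ) :=
  (Finset.range n).powerset.filter (fun S => S.card = k ∧
    ¬ ∃ i, i < n ∧ S = (Finset.range k).image (fun j => (i + j) % n))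

theorem mem_W {k n : ℕ} {S : Finset ℕ} :
    S ∈ W k n ↔ S ⊆ Finset.range n ∧ S.card = k ∧ ¬ isInt k n S := by
  unfold W isInt
  rw [Finset.mem_filter, Finset.mem_powerset]

theorem W_disjoint {k l n : ℕ} (h : k ≠ l) : Disjoint (W k n) (W l n) := by
  rw [Finset.disjoint_left]
  intro S h1 h2
  rw [mem_W] at h1 h2
  exact h (h1.2.1.symm.trans h2.2.1)

theorem down_contractible {k n : ℕ} (h3 : 3 ≤ k) (hn : k + 2 ≤ n) {β : Finset (Finset ℕ)}
    (hβ : β ⊆ W k n) (hne : β.Nonempty) (hcl : ∀ b ∈ β, ∀ b' ∈ β, R b b') :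
    ContractibleSpace ↥(real R ((W (k - 1) n).filter (fun a => ∀ b ∈ β, R b a))) := by
  obtain ⟨I, hI⟩ := hne
  have hIW := mem_W.1 (hβ hI)
  set V := (W (k - 1) n).filter (fun a => ∀ b ∈ β, R b a) with hV
  refine contractible_of_crit R_refl R_symm _ V (V.filter (fun K => K ⊆ I)) rfl
    (Finset.filter_subset _ _) ?_ ?_
  · intro K hK L hL
    rw [Finset.mem_filter] at hK hL
    have hLc : L.card = k - 1 := (mem_W.1 (Finset.mem_filter.1 hL.1).1).2.1
    have h1 : (I \ L).card ≤ 1 := by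
      rw [Finset.card_sdiff_of_subset hL.2, hIW.2.1, hLc]; omega
    obtain ⟨x, hx⟩ := Finset.card_le_one_iff_subset_singleton.1 h1
    exact R_of_le_one x ((Finset.sdiff_subset_sdiff hK.2 (Finset.Subset.refl _)).trans hx)
  · intro γ hγ hclγ
    have hγV : ∀ g ∈ γ, g ∈ W (k - 1) n ∧ ∀ b ∈ β, R b g := fun g hg =>
      Finset.mem_filter.1 (hγ hg)
    have hC : ∀ J ∈ β ∪ γ, ∀ J' ∈ β ∪ γ, sep pos J J' := by
      intro J hJ J' hJ'
      rw [← R_iff]
      rw [Finset.mem_union] at hJ hJ'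
      rcases hJ with hJ | hJ
      · rcases hJ' with hJ' | hJ'
        · exact hcl J hJ J' hJ'
        · exact (hγV J' hJ').2 J hJ
      · rcases hJ' with hJ' | hJ'
        · exact R_symm _ _ ((hγV J hJ).2 J' hJ')
        · exact hclγ J hJ J' hJ'
    obtain ⟨x, hx, y, hy, hxy, gx, gy⟩ := two_good pos_inj k I (β ∪ γ) hIW.2.1 (by omega)
      (fun J hJ => hC I (Finset.mem_union_left _ hI) J hJ) hC
    have hfin : ∀ z ∈ I, good pos I (β ∪ γ) z → ¬ isInt (k - 1) n (I.erase z) →
        ∃ a ∈ V.filter (fun K => K ⊆ I), ∀ g ∈ γ, R a g := by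
      intro z hz gz hint
      refine ⟨I.erase z, ?_, ?_⟩
      · rw [Finset.mem_filter, hV, Finset.mem_filter, mem_W]
        refine ⟨⟨⟨(Finset.erase_subset _ _).trans hIW.1, ?_, hint⟩, ?_⟩,
          Finset.erase_subset _ _⟩
        · rw [Finset.card_erase_of_mem hz, hIW.2.1]
        · intro b hb
          exact R_symm _ _ ((R_iff _ _).2 (gz b (Finset.mem_union_left _ hb)))
      · intro g hg
        exact (R_iff _ _).2 (gz g (Finset.mem_union_right _ hg))
    by_cases hix : isInt (k - 1) n (I.erase x)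
    · by_cases hiy : isInt (k - 1) n (I.erase y)
      · exfalso
        apply hIW.2.2
        have hxn := Finset.mem_range.1 (hIW.1 hx)
        have hyn := Finset.mem_range.1 (hIW.1 hy)
        have := int_down (by omega) (by omega) hx hy hxy hxn hyn hix hiy
        rwa [show k - 1 + 1 = k by omega] at this
      · exact hfin y hy gy hiy
    · exact hfin x hx gx hix

theorem up_contractible {k n : ℕ} (h3 : 3 ≤ k) (hn : k + 2 ≤ n) {β : Finset (Finset ℕ)}
    (hβ : β ⊆ W (k - 1) n) (hne : β.Nonempty) (hcl : ∀ b ∈ β, ∀ b' ∈ β, R b b') :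
    ContractibleSpace ↥(real R ((W k n).filter (fun a => ∀ b ∈ β, R b a))) := by
  obtain ⟨I, hI⟩ := hne
  have hIW := mem_W.1 (hβ hI)
  set V := (W k n).filter (fun a => ∀ b ∈ β, R b a) with hV
  refine contractible_of_crit R_refl R_symm _ V (V.filter (fun K => I ⊆ K)) rfl
    (Finset.filter_subset _ _) ?_ ?_
  · intro K hK L hL
    rw [Finset.mem_filter] at hK hL
    have hKc : K.card = k := (mem_W.1 (Finset.mem_filter.1 hK.1).1).2.1
    have h1 : (K \ I).card ≤ 1 := by
      rw [Finset.card_sdiff_of_subset hK.2, hIW.2.1, hKc]; omega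
    obtain ⟨x, hx⟩ := Finset.card_le_one_iff_subset_singleton.1 h1
    exact R_of_le_one x ((Finset.sdiff_subset_sdiff (Finset.Subset.refl _) hL.2).trans hx)
  · intro γ hγ hclγ
    have hγV : ∀ g ∈ γ, g ∈ W k n ∧ ∀ b ∈ β, R b g := fun g hg =>
      Finset.mem_filter.1 (hγ hg)
    have hC : ∀ J ∈ β ∪ γ, ∀ J' ∈ β ∪ γ, sep pos J J' := by
      intro J hJ J' hJ'
      rw [← R_iff]
      rw [Finset.mem_union] at hJ hJ'
      rcases hJ with hJ | hJ
      · rcases hJ' with hJ' | hJ'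
        · exact hcl J hJ J' hJ'
        · exact (hγV J' hJ').2 J hJ
      · rcases hJ' with hJ' | hJ'
        · exact R_symm _ _ ((hγV J hJ).2 J' hJ')
        · exact hclγ J hJ J' hJ'
    have hsub : ∀ J ∈ β ∪ γ, J ⊆ Finset.range n := by
      intro J hJ
      rw [Finset.mem_union] at hJ
      rcases hJ with hJ | hJ
      · exact (mem_W.1 (hβ hJ)).1
      · exact (mem_W.1 (hγV J hJ).1).1
    -- complements
    have hcomp : ∀ S T : Finset ℕ, S ⊆ Finset.range n → T ⊆ Finset.range n →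
        sep pos S T → sep pos (Finset.range n \ S) (Finset.range n \ T) := by
      intro S T hS hT h
      apply sep_symm
      intro a b c d ha ha' hc hc' hb hb' hd hd' h1 h2
      rw [Finset.mem_sdiff] at ha hc hb hd
      rw [Finset.mem_sdiff, not_and, not_not] at ha' hc' hb' hd'
      exact h a b c d (ha' ha.1) ha.2 (hc' hc.1) hc.2 (hb' hb.1) hb.2 (hd' hd.1) hd.2 h1 h2
    have hcomp' : ∀ S T : Finset ℕ, S ⊆ Finset.range n → T ⊆ Finset.range n →
        sep pos (Finset.range n \ S) (Finset.range n \ T) → sep pos S T := by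
      intro S T hS hT h
      have := hcomp (Finset.range n \ S) (Finset.range n \ T) Finset.sdiff_subset
        Finset.sdiff_subset h
      rwa [Finset.sdiff_sdiff_eq_self hS, Finset.sdiff_sdiff_eq_self hT] at this
    have hcard : (Finset.range n \ I).card = n - (k - 1) := by
      rw [Finset.card_sdiff_of_subset hIW.1, Finset.card_range, hIW.2.1]
    obtain ⟨x, hx, y, hy, hxy, gx, gy⟩ := two_good pos_inj (n - (k - 1)) (Finset.range n \ I)
      ((β ∪ γ).image (fun J => Finset.range n \ J)) hcard (by omega)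
      (by
        intro J hJ
        rw [Finset.mem_image] at hJ
        obtain ⟨J, hJ, rfl⟩ := hJ
        exact hcomp I J hIW.1 (hsub J hJ) (hC I (Finset.mem_union_left _ hI) J hJ))
      (by
        intro J hJ J' hJ'
        rw [Finset.mem_image] at hJ hJ'
        obtain ⟨J, hJ, rfl⟩ := hJ
        obtain ⟨J', hJ', rfl⟩ := hJ'
        exact hcomp J J' (hsub J hJ) (hsub J' hJ') (hC J hJ J' hJ'))
    have hfin : ∀ z ∈ Finset.range n \ I, good pos (Finset.range n \ I)
        ((β ∪ γ).image (fun J => Finset.range n \ J)) z → ¬ isInt k n (insert z I) →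
        ∃ a ∈ V.filter (fun K => I ⊆ K), ∀ g ∈ γ, R a g := by
      intro z hz gz hint
      rw [Finset.mem_sdiff] at hz
      have hzI : insert z I ⊆ Finset.range n := Finset.insert_subset hz.1 hIW.1
      have heq : (Finset.range n \ I).erase z = Finset.range n \ insert z I := by
        ext w
        simp only [Finset.mem_erase, Finset.mem_sdiff, Finset.mem_insert, not_or]
        tauto
      have hg : ∀ J ∈ β ∪ γ, R (insert z I) J := by
        intro J hJ
        rw [R_iff]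
        apply hcomp' _ _ hzI (hsub J hJ)
        rw [← heq]
        exact gz _ (Finset.mem_image_of_mem _ hJ)
      refine ⟨insert z I, ?_, ?_⟩
      · rw [Finset.mem_filter, hV, Finset.mem_filter, mem_W]
        refine ⟨⟨⟨hzI, ?_, hint⟩, ?_⟩, Finset.subset_insert _ _⟩
        · rw [Finset.card_insert_of_notMem hz.2, hIW.2.1]; omega
        · intro b hb
          exact R_symm _ _ (hg b (Finset.mem_union_left _ hb))
      · intro g hg'
        exact hg g (Finset.mem_union_right _ hg')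
    by_cases hix : isInt k n (insert x I)
    · by_cases hiy : isInt k n (insert y I)
      · exfalso
        apply hIW.2.2
        rw [Finset.mem_sdiff, Finset.mem_range] at hx hy
        refine int_up (by omega) (by omega) hx.2 hy.2 hxy hx.1 hy.1 ?_ ?_
        · rwa [show k - 1 + 1 = k by omega]
        · rwa [show k - 1 + 1 = k by omega]
      · exact hfin y hy gy hiy
    · exact hfin x hx gx hix

theorem level_equiv {k n : ℕ} (h3 : 3 ≤ k) (hn : k + 2 ≤ n) :
    Nonempty (ContinuousMap.HomotopyEquiv ↥(real R (W k n)) ↥(real R (W (k - 1) n))) := by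
  obtain ⟨e1⟩ := bip R_refl R_symm _ (W (k - 1) n) (W k n) rfl (W_disjoint (by omega))
    (fun β hβ hne hcl => down_contractible h3 hn hβ hne hcl)
  obtain ⟨e2⟩ := bip R_refl R_symm _ (W k n) (W (k - 1) n) rfl (W_disjoint (by omega))
    (fun β hβ hne hcl => up_contractible h3 hn hβ hne hcl)
  rw [Finset.union_comm] at e2
  exact ⟨e2.symm.trans e1⟩

theorem level_two {n : ℕ} : ∀ k, 2 ≤ k → k + 2 ≤ n →
    Nonempty (ContinuousMap.HomotopyEquiv ↥(real R (W k n)) ↥(real R (W 2 n))) := by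
  intro k
  induction k with
  | zero => intro h; omega
  | succ k ih =>
    intro h2 hn
    by_cases hk : k + 1 = 2
    · rw [hk]; exact ⟨ContinuousMap.HomotopyEquiv.refl _⟩
    · obtain ⟨e1⟩ := level_equiv (k := k + 1) (n := n) (by omega) hn
      obtain ⟨e2⟩ := ih (by omega) (by omega)
      rw [Nat.add_sub_cancel] at e1
      exact ⟨e1.trans e2⟩

end Pool.Agent.WS
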