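import Pool.Agent.WS.Flag

set_option autoImplicit false

namespace Pool.Agent.WS

open Classical Set Topology

variable {α : Type*} [DecidableEq α]

section remove

variable (v : α)

noncomputable def lam (x : α → ℝ) : α → ℝ := (max (1 - x v) (1/4))⁻¹ • Function.update x v 0

noncomputable def mu (x : α → ℝ) : ℝ := min (2 * x v) 1

theorem continuous_lam : Continuous (lam v) := by
  have h1 : Continuous (fun x : α → ℝ => (max (1 - x v) (1/4))⁻¹) := by
    refine Continuous.inv₀ ?_ ?_
    · exact (continuous_const.sub (continuous_apply v)).max continuous_const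
    · intro x
      have : (1/4 : ℝ) ≤ max (1 - x v) (1/4) := le_max_right _ _
      linarith
  have h2 : Continuous (fun x : α → ℝ => Function.update x v (0:ℝ)) :=
    continuous_id.update v continuous_const
  exact h1.smul h2

theorem continuous_mu : Continuous (mu v) := by
  unfold mu
  exact (continuous_const.mul (continuous_apply v)).min continuous_const

theorem lam_of_zero {x : α → ℝ} (h : x v = 0) : lam v x = x := by
  unfold lam
  rw [h, sub_zero, max_eq_left (by norm_num), inv_one, one_smul]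
  rw [← h]
  exact Function.update_eq_self v x

theorem lam_v (x : α → ℝ) : lam v x v = 0 := by
  unfold lam
  simp

theorem lam_ne {x : α → ℝ} {w : α} (h : w ≠ v) : lam v x w = (max (1 - x v) (1/4))⁻¹ * x w := by
  unfold lam
  simp [Function.update_of_ne h]

theorem lam_pos_fac (x : α → ℝ) : 0 < (max (1 - x v) (1/4))⁻¹ := by
  have : (1/4 : ℝ) ≤ max (1 - x v) (1/4) := le_max_right _ _
  exact inv_pos.2 (by linarith)

theorem lam_supp {x : α → ℝ} {w : α} (h : lam v x w ≠ 0) : x w ≠ 0 := by
  by_cases hw : w = v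
  · subst hw; exact absurd (lam_v w x) h
  · rw [lam_ne v hw] at h
    exact right_ne_zero_of_mul h

theorem lam_nonneg {x : α → ℝ} (hx : ∀ w, 0 ≤ x w) (w : α) : 0 ≤ lam v x w := by
  by_cases hw : w = v
  · subst hw; rw [lam_v]
  · rw [lam_ne v hw]
    exact mul_nonneg (lam_pos_fac v x).le (hx w)

theorem lam_sum {x : α → ℝ} {V : Finset α} (hv : v ∉ V) (hx : ∑ w ∈ insert v V, x w = 1)
    (h : x v ≤ 3/4) : ∑ w ∈ V, lam v x w = 1 := by
  rw [Finset.sum_insert hv] at hx
  have h1 : ∑ w ∈ V, lam v x w = (1 - x v)⁻¹ * ∑ w ∈ V, x w := by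
    rw [Finset.mul_sum]
    refine Finset.sum_congr rfl fun w hw => ?_
    rw [lam_ne v (by rintro rfl; exact hv hw), max_eq_left (by linarith)]
  rw [h1, show ∑ w ∈ V, x w = 1 - x v by linarith]
  exact inv_mul_cancel₀ (by linarith)

variable {r : α → α → Prop}

theorem lam_mem {V : Finset α} (hv : v ∉ V) {x : α → ℝ}
    (hx : x ∈ real r (insert v (V.filter (r v)))) (h : x v ≤ 3/4) :
    lam v x ∈ real r (V.filter (r v)) := by
  obtain ⟨h0, h1, h2, h3⟩ := hx
  have hv' : v ∉ V.filter (r v) := by rw [Finset.mem_filter]; exact fun h => hv h.1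
  refine ⟨lam_nonneg v h0, ?_, lam_sum v hv' h2 h, ?_⟩
  · intro w hw
    by_cases hwv : w = v
    · subst hwv; exact lam_v w x
    · rw [lam_ne v hwv, h1 w (by
        rw [Finset.mem_insert, not_or]; exact ⟨hwv, hw⟩), mul_zero]
  · intro w w' hw hw'
    exact h3 w w' (lam_supp v hw) (lam_supp v hw')

/-- Removing a vertex whose link is contractible is a homotopy equivalence. -/
theorem remove_vertex (hr : ∀ v, r v v) (hs : ∀ v w, r v w → r w v) {V : Finset α}
    (hv : v ∉ V) (hL : ContractibleSpace ↥(real r (V.filter (r v)))) :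
    Nonempty (ContinuousMap.HomotopyEquiv ↥(real r (insert v V)) ↥(real r V)) := by
  obtain ⟨H, c, hc, hH, hHm, hH0, hH1⟩ := contr_data hL
  set X := real r (insert v V) with hX
  set Y := real r V with hY
  set P := real r (insert v (V.filter (r v))) with hP
  set S := real r (V.filter (r v)) with hS
  have hYX : Y ⊆ X := real_mono (Finset.subset_insert _ _)
  have hSY : S ⊆ Y := real_mono (Finset.filter_subset _ _)
  have hPX : P ⊆ X := real_mono (Finset.insert_subset_insert _ (Finset.filter_subset _ _))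
  have hY0 : ∀ x ∈ Y, x v = 0 := fun x hx => hx.2.1 v hv
  have hXY : ∀ x ∈ X, x v = 0 → x ∈ Y := by
    rintro x ⟨h0, h1, h2, h3⟩ hx
    refine ⟨h0, ?_, ?_, h3⟩
    · intro w hw
      by_cases hwv : w = v
      · subst hwv; exact hx
      · exact h1 w (by rw [Finset.mem_insert, not_or]; exact ⟨hwv, hw⟩)
    · rw [Finset.sum_insert hv, hx, zero_add] at h2
      exact h2
  have hXP : ∀ x ∈ X, x v ≠ 0 → x ∈ P := by
    rintro x ⟨h0, h1, h2, h3⟩ hx
    have hz : ∀ w, w ∉ insert v (V.filter (r v)) → x w = 0 := by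
      intro w hw
      by_contra hne
      have hrw : r v w := h3 v w hx hne
      rw [Finset.mem_insert, not_or, Finset.mem_filter] at hw
      have : w ∉ insert v V := by
        rw [Finset.mem_insert, not_or]
        exact ⟨hw.1, fun h => hw.2 ⟨h, hrw⟩⟩
      exact hne (h1 w this)
    refine ⟨h0, hz, ?_, h3⟩
    rw [← h2]
    refine Finset.sum_subset (Finset.insert_subset_insert _ (Finset.filter_subset _ _)) ?_
    intro w _ hw
    exact hz w hw
  have hx01 : ∀ x ∈ X, 0 ≤ x v ∧ x v ≤ 1 := by
    rintro x ⟨h0, h1, h2, h3⟩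
    refine ⟨h0 v, ?_⟩
    rw [Finset.sum_insert hv] at h2
    have : 0 ≤ ∑ w ∈ V, x w := Finset.sum_nonneg fun w _ => h0 w
    linarith
  have hmu : ∀ x ∈ X, 0 ≤ mu v x ∧ mu v x ≤ 1 := by
    intro x hx
    have := (hx01 x hx).1
    refine ⟨le_min (by linarith) zero_le_one, min_le_right _ _⟩
  set e : α → ℝ := Pi.single v 1 with he
  -- first homotopy
  let q : (α → ℝ) → (α → ℝ) := fun x => (1 - mu v x) • lam v x + mu v x • e
  have hqc : Continuous q := by
    refine Continuous.add ?_ ?_
    · exact (continuous_const.sub (continuous_mu v)).smul (continuous_lam v)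
    · exact (continuous_mu v).smul continuous_const
  have hqval : ∀ x w, q x w = (1 - mu v x) * lam v x w + mu v x * (if w = v then 1 else 0) := by
    intro x w
    simp [q, he, Pi.single_apply]
  have hAm : ∀ s ∈ Icc (0:ℝ) 1, ∀ x ∈ X, (1 - s) • x + s • q x ∈ X := by
    intro s hs01 x hx
    have hval : ∀ w, ((1 - s) • x + s • q x) w = (1 - s) * x w + s * q x w := by
      intro w; simp
    have hq0 : ∀ w, 0 ≤ q x w := by
      intro w
      rw [hqval]
      have h1 := (hmu x hx).1
      have h2 := (hmu x hx).2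
      have h3 := lam_nonneg v hx.1 w
      have h4 : (0:ℝ) ≤ (if w = v then 1 else 0) := by split_ifs <;> norm_num
      have h5 : 0 ≤ 1 - mu v x := by linarith
      positivity
    refine mem_real_of_supp hx ?_ ?_ ?_
    · intro w
      rw [hval]
      have h1 := hx.1 w
      have h2 := hq0 w
      have h3 := hs01.1
      have h4 : 0 ≤ 1 - s := by linarith [hs01.2]
      positivity
    · intro w hw hxw
      apply hw
      have hl : lam v x w = 0 := by
        by_contra h
        exact lam_supp v h hxw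
      rw [hval, hqval, hxw, hl]
      by_cases hwv : w = v
      · subst hwv
        have : mu w x = 0 := by unfold mu; rw [hxw, mul_zero]; exact min_eq_left zero_le_one
        rw [this]; ring
      · rw [if_neg hwv]; ring
    · have hsx := hx.2.2.1
      have hsq : ∑ w ∈ insert v V, q x w = 1 := by
        rw [Finset.sum_insert hv, hqval, lam_v, if_pos rfl]
        have h1 : ∑ w ∈ V, q x w = (1 - mu v x) * ∑ w ∈ V, lam v x w := by
          rw [Finset.mul_sum]
          refine Finset.sum_congr rfl fun w hw => ?_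
          rw [hqval, if_neg (by rintro rfl; exact hv hw)]
          ring
        rw [h1]
        by_cases h : x v ≤ 3/4
        · rw [lam_sum v hv hsx h]; ring
        · have : mu v x = 1 := by
            unfold mu; exact min_eq_right (by linarith)
          rw [this]; ring
      have : ∑ w ∈ insert v V, ((1 - s) • x + s • q x) w =
          (1 - s) * ∑ w ∈ insert v V, x w + s * ∑ w ∈ insert v V, q x w := by
        rw [Finset.mul_sum, Finset.mul_sum, ← Finset.sum_add_distrib]
        exact Finset.sum_congr rfl fun w _ => hval w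
      rw [this, hsx, hsq]; ring
  have hqm : ∀ x ∈ X, q x ∈ X := by
    intro x hx
    have := hAm 1 ⟨zero_le_one, le_refl 1⟩ x hx
    rw [sub_self, zero_smul, zero_add, one_smul] at this
    exact this
  let fq : C(↥X, ↥X) := ⟨fun x => ⟨q x, hqm x x.2⟩, by
    exact (hqc.comp continuous_subtype_val).subtype_mk _⟩
  have hom1 : (ContinuousMap.id ↥X).Homotopic fq := by
    refine homotopic_of _ _ (fun p : ℝ × (α → ℝ) => (1 - p.1) • p.2 + p.1 • q p.2) ?_ ?_ ?_ ?_
    · refine Continuous.continuousOn ?_
      refine Continuous.add ?_ ?_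
      · exact (continuous_const.sub continuous_fst).smul continuous_snd
      · exact continuous_fst.smul (hqc.comp continuous_snd)
    · exact hAm
    · intro x; simp
    · intro x; simp [fq]
  -- second homotopy
  let tau : ℝ × (α → ℝ) → ℝ := fun p => mu v p.2 * (1 - p.1)
  let sig : ℝ × (α → ℝ) → ℝ := fun p => max (mu v p.2 * p.1) (4 * p.2 v - 2)
  have htc : Continuous tau :=
    ((continuous_mu v).comp continuous_snd).mul (continuous_const.sub continuous_fst)
  have hsc : Continuous sig := by
    refine Continuous.max ?_ ?_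
    · exact ((continuous_mu v).comp continuous_snd).mul continuous_fst
    · exact (continuous_const.mul ((continuous_apply v).comp continuous_snd)).sub continuous_const
  let J : ℝ × (α → ℝ) → (α → ℝ) := fun p =>
    if p.2 v = 0 then p.2 else
      if p.2 v ≤ 3/4 then (1 - tau p) • H (sig p, lam v p.2) + tau p • e
      else (1 - tau p) • c + tau p • e
  have hJ0 : ∀ p, p.2 v = 0 → J p = p.2 := fun p hp => if_pos hp
  have hJ1 : ∀ p, p.2 v ≠ 0 → p.2 v ≤ 3/4 →
      J p = (1 - tau p) • H (sig p, lam v p.2) + tau p • e := by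
    intro p h1 h2
    show (if p.2 v = 0 then p.2 else _) = _
    rw [if_neg h1, if_pos h2]
  have hJ2 : ∀ p, p.2 v ≠ 0 → ¬ p.2 v ≤ 3/4 → J p = (1 - tau p) • c + tau p • e := by
    intro p h1 h2
    show (if p.2 v = 0 then p.2 else _) = _
    rw [if_neg h1, if_neg h2]
  have htau : ∀ s ∈ Icc (0:ℝ) 1, ∀ x ∈ X, 0 ≤ tau (s, x) ∧ tau (s, x) ≤ 1 := by
    intro s hs01 x hx
    have h1 := (hmu x hx).1
    have h2 := (hmu x hx).2
    have h3 : 0 ≤ 1 - s := by linarith [hs01.2]
    have h4 : 1 - s ≤ 1 := by linarith [hs01.1]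
    exact ⟨mul_nonneg h1 h3, mul_le_one₀ h2 h3 h4⟩
  have hJm : ∀ s ∈ Icc (0:ℝ) 1, ∀ x ∈ X, J (s, x) ∈ X := by
    intro s hs01 x hx
    by_cases h0 : x v = 0
    · rw [hJ0 (s, x) h0]; exact hx
    · by_cases h1 : x v ≤ 3/4
      · rw [hJ1 (s, x) h0 h1]
        exact cone_mem hr hs hv (hHm _ _ (lam_mem v hv (hXP x hx h0) h1))
          (htau s hs01 x hx).1 (htau s hs01 x hx).2
      · rw [hJ2 (s, x) h0 h1]
        exact cone_mem hr hs hv hc (htau s hs01 x hx).1 (htau s hs01 x hx).2
  have hcY : ContinuousOn J (Icc (0:ℝ) 1 ×ˢ Y) := by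
    refine continuousOn_snd.congr ?_
    intro p hp
    exact hJ0 p (hY0 _ hp.2)
  have hcP2 : ContinuousOn J (Icc (0:ℝ) 1 ×ˢ (P ∩ {x | x v ≤ 3/4})) := by
    have h1 : ContinuousOn (fun p : ℝ × (α → ℝ) =>
        (1 - tau p) • H (sig p, lam v p.2) + tau p • e)
        (Icc (0:ℝ) 1 ×ˢ (P ∩ {x | x v ≤ 3/4})) := by
      refine ContinuousOn.add ?_ ?_
      · refine ContinuousOn.smul (continuous_const.sub htc).continuousOn ?_
        refine hH.comp (t := univ ×ˢ S)
          (f := fun p : ℝ × (α → ℝ) => (sig p, lam v p.2)) ?_ ?_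
        · exact (hsc.prodMk ((continuous_lam v).comp continuous_snd)).continuousOn
        · intro p hp
          exact ⟨mem_univ _, lam_mem v hv hp.2.1 hp.2.2⟩
      · exact (htc.smul continuous_const).continuousOn
    refine h1.congr ?_
    intro p hp
    by_cases h0 : p.2 v = 0
    · rw [hJ0 p h0]
      have hpY : p.2 ∈ Y := hXY _ (hPX hp.2.1) h0
      have e1 : mu v p.2 = 0 := by
        unfold mu; rw [h0, mul_zero]; exact min_eq_left zero_le_one
      have e2 : tau p = 0 := by simp only [tau]; rw [e1, zero_mul]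
      have e3 : sig p = 0 := by
        simp only [sig]; rw [e1, zero_mul, h0]; exact max_eq_left (by norm_num)
      have e4 : H (sig p, lam v p.2) = p.2 := by
        rw [e3, hH0 _ (lam_mem v hv hp.2.1 hp.2.2), lam_of_zero v h0]
      simp only []
      rw [e4, e2, sub_zero, one_smul, zero_smul, add_zero]
    · exact hJ1 p h0 hp.2.2
  have hcP3 : ContinuousOn J (Icc (0:ℝ) 1 ×ˢ (P ∩ {x | 3/4 ≤ x v})) := by
    have h1 : ContinuousOn (fun p : ℝ × (α → ℝ) => (1 - tau p) • c + tau p • e)
        (Icc (0:ℝ) 1 ×ˢ (P ∩ {x | 3/4 ≤ x v})) := by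
      refine Continuous.continuousOn (Continuous.add ?_ ?_)
      · exact (continuous_const.sub htc).smul continuous_const
      · exact htc.smul continuous_const
    refine h1.congr ?_
    intro p hp
    have h34 : 3/4 ≤ p.2 v := hp.2.2
    have h0 : p.2 v ≠ 0 := by intro h; rw [h] at h34; norm_num at h34
    by_cases h2 : p.2 v ≤ 3/4
    · rw [hJ1 p h0 h2]
      have e0 : p.2 v = 3/4 := le_antisymm h2 h34
      have e1 : mu v p.2 = 1 := by
        unfold mu; rw [e0]; norm_num
      have e3 : sig p = 1 := by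
        simp only [sig]; rw [e1, one_mul, e0]
        have := hp.1.2
        rw [max_eq_right] <;> norm_num
        exact this
      rw [e3, hH1 _ (lam_mem v hv hp.2.1 h2)]
    · exact hJ2 p h0 h2
  have hcJ : ContinuousOn J (Icc (0:ℝ) 1 ×ˢ X) := by
    have hclY : IsClosed (Icc (0:ℝ) 1 ×ˢ Y) := isClosed_Icc.prod (isClosed_real r V)
    have hclP2 : IsClosed (Icc (0:ℝ) 1 ×ˢ (P ∩ {x : α → ℝ | x v ≤ 3/4})) :=
      isClosed_Icc.prod ((isClosed_real r _).inter
        (isClosed_le (continuous_apply v) continuous_const))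
    have hclP3 : IsClosed (Icc (0:ℝ) 1 ×ˢ (P ∩ {x : α → ℝ | 3/4 ≤ x v})) :=
      isClosed_Icc.prod ((isClosed_real r _).inter
        (isClosed_le continuous_const (continuous_apply v)))
    have h12 := (hcY.union_of_isClosed hcP2 hclY hclP2).union_of_isClosed hcP3
      (hclY.union hclP2) hclP3
    refine h12.mono ?_
    rintro p ⟨hp1, hp2⟩
    by_cases h0 : p.2 v = 0
    · exact Or.inl (Or.inl ⟨hp1, hXY _ hp2 h0⟩)
    · by_cases h1 : p.2 v ≤ 3/4
      · exact Or.inl (Or.inr ⟨hp1, hXP _ hp2 h0, h1⟩)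
      · exact Or.inr ⟨hp1, hXP _ hp2 h0, (not_le.1 h1).le⟩
  have hJ1Y : ∀ x ∈ X, J (1, x) ∈ Y := by
    intro x hx
    have ht : tau (1, x) = 0 := by simp only [tau]; rw [sub_self, mul_zero]
    by_cases h0 : x v = 0
    · rw [hJ0 (1, x) h0]; exact hXY x hx h0
    · by_cases h1 : x v ≤ 3/4
      · rw [hJ1 (1, x) h0 h1, ht, sub_zero, one_smul, zero_smul, add_zero]
        exact hSY (hHm _ _ (lam_mem v hv (hXP x hx h0) h1))
      · rw [hJ2 (1, x) h0 h1, ht, sub_zero, one_smul, zero_smul, add_zero]
        exact hSY hc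
  have hJ0q : ∀ x ∈ X, J (0, x) = q x := by
    intro x hx
    have ht : tau (0, x) = mu v x := by simp only [tau]; rw [sub_zero, mul_one]
    by_cases h0 : x v = 0
    · rw [hJ0 (0, x) h0]
      have e1 : mu v x = 0 := by
        unfold mu; rw [h0, mul_zero]; exact min_eq_left zero_le_one
      simp only [q]
      rw [e1, sub_zero, one_smul, zero_smul, add_zero, lam_of_zero v h0]
    · by_cases h1 : x v ≤ 3/4
      · rw [hJ1 (0, x) h0 h1, ht]
        by_cases h2 : x v ≤ 1/2
        · have e3 : sig (0, x) = 0 := by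
            simp only [sig]; rw [mul_zero]; exact max_eq_left (by linarith)
          rw [e3, hH0 _ (lam_mem v hv (hXP x hx h0) h1)]
        · have e1 : mu v x = 1 := by
            unfold mu; exact min_eq_right (by linarith)
          simp only [q]
          rw [e1, sub_self, zero_smul, zero_smul]
      · rw [hJ2 (0, x) h0 h1, ht]
        have e1 : mu v x = 1 := by
          unfold mu; exact min_eq_right (by linarith)
        simp only [q]
        rw [e1, sub_self, zero_smul, zero_smul]
  have hrc : ContinuousOn (fun x => J (1, x)) X := by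
    refine hcJ.comp (Continuous.continuousOn (by fun_prop)) ?_
    intro x hx
    exact ⟨⟨zero_le_one, le_refl 1⟩, hx⟩
  let rho : C(↥X, ↥Y) := ⟨fun x => ⟨J (1, x), hJ1Y x x.2⟩, by
    exact (hrc.comp_continuous continuous_subtype_val (fun x => x.2)).subtype_mk _⟩
  let inc : C(↥Y, ↥X) := ⟨fun x => ⟨x, hYX x.2⟩, continuous_subtype_val.subtype_mk _⟩
  have hom2 : fq.Homotopic (inc.comp rho) := by
    refine homotopic_of _ _ J hcJ hJm ?_ ?_
    · intro x; exact hJ0q x x.2
    · intro x; rfl
  refine ⟨⟨rho, inc, (hom1.trans hom2).symm, ?_⟩⟩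
  have : rho.comp inc = ContinuousMap.id ↥Y := by
    ext1 x
    apply Subtype.ext
    exact hJ0 (1, (x : α → ℝ)) (hY0 x x.2)
  rw [this]

end remove

end Pool.Agent.WS
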