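import Pool.Agent.WS.Cyc

set_option autoImplicit false

namespace Pool.Agent.WS

variable {α : Type*} [DecidableEq α]

/-- `I \ {x}` is chord separated from every member of `C` -/
def good (f : α → ℤ) (I : Finset α) (C : Finset (Finset α)) (x : α) : Prop :=
  ∀ J ∈ C, sep f (I.erase x) J

theorem exists_kill {f : α → ℤ} {I J : Finset α} {x : α} (hx : x ∈ I) (hs : sep f I J)
    (h : ¬ sep f (I.erase x) J) : ∃ a c d, kill f I J x a c d := by
  unfold sep at h
  push Not at h
  obtain ⟨a, b, c, d, ha, ha', hc, hc', hb, hb', hd, hd', h1, h2, -⟩ := h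
  rw [Finset.mem_erase] at ha hc
  have hb2 : b = x ∨ b ∉ I := by
    by_cases e : b = x
    · exact Or.inl e
    · exact Or.inr fun h => hb' (Finset.mem_erase.2 ⟨e, h⟩)
  have hd2 : d = x ∨ d ∉ I := by
    by_cases e : d = x
    · exact Or.inl e
    · exact Or.inr fun h => hd' (Finset.mem_erase.2 ⟨e, h⟩)
  rcases hb2 with rfl | hbI
  · rcases hd2 with rfl | hdI
    · exfalso; clear * - h1 h2; unfold cyc at *; omega
    · refine ⟨c, a, d, hx, hb, hc.2, hc', ha.2, ha', hd, hdI, ?_, ?_⟩
      · clear * - h1 h2; unfold cyc at *; omega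
      · clear * - h1 h2; unfold cyc at *; omega
  · rcases hd2 with rfl | hdI
    · refine ⟨a, c, b, hx, hd, ha.2, ha', hc.2, hc', hb, hbI, ?_, ?_⟩
      · clear * - h1 h2; unfold cyc at *; omega
      · clear * - h1 h2; unfold cyc at *; omega
    · exact (hs a b c d ha.2 ha' hc.2 hc' hb hbI hd hdI h1 h2).elim

theorem sep_erase {f : α → ℤ} {S T : Finset α} (h : sep f S T) (z : α) :
    sep f (S.erase z) (T.erase z) := by
  intro a b c d ha ha' hc hc' hb hb' hd hd' h1 h2
  rw [Finset.mem_erase] at ha hc hb hd
  rw [Finset.mem_erase, not_and] at ha' hc' hb' hd'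
  exact h a b c d ha.2 (ha' ha.1) hc.2 (hc' hc.1) hb.2 (hb' hb.1) hd.2 (hd' hd.1) h1 h2

/-- the orientation of a kill does not depend on the new element -/
theorem kill_orient {f : α → ℤ} (hf : Function.Injective f) {I J : Finset α} {x a c d d1 : α}
    (hs : sep f I J) (k : kill f I J x a c d) (h1 : d1 ∈ J) (h2 : d1 ∉ I) :
    kill f I J x a c d1 := by
  have e1 := k.h1
  have e2 := k.h2
  have n1 : ¬ cyc f c d1 a := by
    intro h
    refine hs c d1 a d k.cI k.cJ k.aI k.aJ h1 h2 k.dJ k.dI h ?_
    clear * - e1 e2; unfold cyc at *; omega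
  have n2 : cyc f c a d1 := by
    refine cyc_flip hf ?_ ?_ ?_ n1
    · rintro rfl; exact h2 k.cI
    · rintro rfl; exact h2 k.aI
    · rintro rfl; clear * - e1 e2; unfold cyc at *; omega
  refine ⟨k.xI, k.xJ, k.aI, k.aJ, k.cI, k.cJ, h1, h2, ?_, ?_⟩
  · clear * - e1 e2 n2; unfold cyc at *; omega
  · clear * - e1 e2 n2; unfold cyc at *; omega

/-- every kill of `x` uses `z`, and `x` is killed -/
def Piv (f : α → ℤ) (I : Finset α) (C : Finset (Finset α)) (z x : α) : Prop :=
  (∃ J ∈ C, ∃ a c d, kill f I J x a c d) ∧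
    ∀ J ∈ C, ∀ a c d, kill f I J x a c d → a = z ∨ c = z

theorem fwd_absurd {f : α → ℤ} (hf : Function.Injective f) {I : Finset α}
    {C : Finset (Finset α)} (sI : ∀ J ∈ C, sep f I J)
    (sC : ∀ J ∈ C, ∀ J' ∈ C, sep f J J') (H : ∀ z ∈ I, ∃ x, Piv f I C z x)
    {z x a d : α} {J : Finset α} (hJ : J ∈ C) (k : kill f I J x a z d)
    (pv : ∀ J ∈ C, ∀ a c d, kill f I J x a c d → a = z ∨ c = z) : False := by
  classical
  have claim : ∀ n : ℕ, ∃ (z x a d : α) (J : Finset α), J ∈ C ∧ kill f I J x a z d ∧
      (∀ J ∈ C, ∀ a c d, kill f I J x a c d → a = z ∨ c = z) ∧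
      n ≤ (J \ I).card * (I.card + 1) + (I.filter (fun w => cyc f d w x)).card := by
    intro n
    induction n with
    | zero => exact ⟨z, x, a, d, J, hJ, k, pv, Nat.zero_le _⟩
    | succ n ih =>
      clear! z x a d J
      obtain ⟨z, x, a, d, J, hJ, k, pv, hn⟩ := ih
      obtain ⟨y, ⟨J', hJ', a', c', d', k'⟩, pv'⟩ := H x k.xI
      rcases pv' J' hJ' a' c' d' k' with h | h
      · subst h
        exact (FB hf (sI J hJ) (sI J' hJ') (sC J hJ J' hJ') k k' (pv J hJ) (pv' J hJ)
          (pv' J' hJ')).elim
      · subst h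
        have hsub : J \ I ⊆ J' \ I := by
          intro e he
          rw [Finset.mem_sdiff] at he ⊢
          have k1 := kill_orient hf (sI J hJ) k he.1 he.2
          exact ⟨FF hf (sI J hJ) (sC J hJ J' hJ') k1 k' (pv' J hJ) (pv' J' hJ'), he.2⟩
        have hle : (J \ I).card ≤ (J' \ I).card := Finset.card_le_card hsub
        have hb : (I.filter (fun w => cyc f d w c')).card ≤ I.card := Finset.card_filter_le _ _
        rcases lt_or_ge (J \ I).card (J' \ I).card with hlt | hge
        · refine ⟨c', y, a', d', J', hJ', k', pv', ?_⟩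
          have : ((J \ I).card + 1) * (I.card + 1) ≤ (J' \ I).card * (I.card + 1) :=
            Nat.mul_le_mul_right _ hlt
          rw [add_mul] at this
          omega
        · have heq : J \ I = J' \ I := Finset.eq_of_subset_of_card_le hsub hge
          have hd : d ∈ J' := by
            have : d ∈ J' \ I := heq ▸ Finset.mem_sdiff.2 ⟨k.dJ, k.dI⟩
            exact (Finset.mem_sdiff.1 this).1
          have k2 := kill_orient hf (sI J' hJ') k' hd k.dI
          refine ⟨c', y, a', d, J', hJ', k2, pv', ?_⟩
          have hlt : (I.filter (fun w => cyc f d w c')).card <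
              (I.filter (fun w => cyc f d w y)).card := by
            apply Finset.card_lt_card
            rw [Finset.ssubset_iff_of_subset]
            · refine ⟨c', ?_, ?_⟩
              · rw [Finset.mem_filter]; exact ⟨k.xI, k2.h2⟩
              · rw [Finset.mem_filter]
                intro h
                exact (cyc_ne h.2).2.1 rfl
            · intro w hw
              rw [Finset.mem_filter] at hw ⊢
              refine ⟨hw.1, ?_⟩
              have e1 := hw.2
              have e2 := k2.h2
              clear * - e1 e2; unfold cyc at *; omega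
          rw [← heq]
          omega
  obtain ⟨z, x, a, d, J, hJ, k, pv, hn⟩ := claim
    ((∑ J ∈ C, J.card) * (I.card + 1) + I.card + 1)
  have h1 : (J \ I).card ≤ ∑ J ∈ C, J.card :=
    (Finset.card_le_card Finset.sdiff_subset).trans
      (Finset.single_le_sum (f := fun J : Finset α => J.card) (fun _ _ => Nat.zero_le _) hJ)
  have h2 := Nat.mul_le_mul_right (I.card + 1) h1
  have hb : (I.filter (fun w => cyc f d w x)).card ≤ I.card := Finset.card_filter_le _ _
  omega

theorem piv_absurd {f : α → ℤ} (hf : Function.Injective f) {I : Finset α}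
    {C : Finset (Finset α)} (sI : ∀ J ∈ C, sep f I J)
    (sC : ∀ J ∈ C, ∀ J' ∈ C, sep f J J') (hI : I.Nonempty)
    (H : ∀ z ∈ I, ∃ x, Piv f I C z x) : False := by
  obtain ⟨z, hz⟩ := hI
  obtain ⟨x, ⟨J, hJ, a, c, d, k⟩, pv⟩ := H z hz
  rcases pv J hJ a c d k with h | h
  · subst h
    have hf' : Function.Injective (fun x => - f x) := fun u v h => hf (neg_injective h)
    refine fwd_absurd hf' (I := I) (C := C) (fun J hJ => sep_neg (sI J hJ))
      (fun J hJ J' hJ' => sep_neg (sC J hJ J' hJ')) ?_ hJ (kill_neg' k) ?_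
    · intro z hz
      obtain ⟨x, ⟨J, hJ, a, c, d, k⟩, pv⟩ := H z hz
      refine ⟨x, ⟨J, hJ, c, a, d, kill_neg' k⟩, ?_⟩
      intro J hJ a c d k
      exact (pv J hJ c a d (kill_neg k)).symm
    · intro J hJ a c d k
      exact (pv J hJ c a d (kill_neg k)).symm
  · subst h
    exact fwd_absurd hf sI sC H hJ k pv

theorem two_good {f : α → ℤ} (hf : Function.Injective f) : ∀ (n : ℕ) (I : Finset α)
    (C : Finset (Finset α)), I.card = n → 2 ≤ n → (∀ J ∈ C, sep f I J) →
    (∀ J ∈ C, ∀ J' ∈ C, sep f J J') →
    ∃ x ∈ I, ∃ y ∈ I, x ≠ y ∧ good f I C x ∧ good f I C y := by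
  intro n
  induction n with
  | zero => intro I C _ h; omega
  | succ n ih =>
    intro I C hcard hn sI sC
    by_cases h2 : n = 1
    · subst h2
      have hg : ∀ x ∈ I, good f I C x := by
        intro x hx J _ a b c d ha _ hc _ _ _ _ _ h1 _
        have hc1 : (I.erase x).card ≤ 1 := by rw [Finset.card_erase_of_mem hx]; omega
        have := Finset.card_le_one.1 hc1 a ha c hc
        subst this
        exact (cyc_ne h1).2.2 rfl
      obtain ⟨x, hx, y, hy, hxy⟩ := Finset.one_lt_card.1 (by omega : 1 < I.card)
      exact ⟨x, hx, y, hy, hxy, hg x hx, hg y hy⟩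
    · by_contra hcon
      have hne : I.Nonempty := Finset.card_pos.1 (by omega)
      refine piv_absurd hf sI sC hne ?_
      intro z hz
      have hc' : (I.erase z).card = n := by rw [Finset.card_erase_of_mem hz]; omega
      have key : ∀ x, x ∈ I.erase z → good f (I.erase z) (C.image (fun J => J.erase z)) x →
          ¬ good f I C x → Piv f I C z x := by
        intro x hx hg hng
        rw [Finset.mem_erase] at hx
        unfold good at hng
        push Not at hng
        obtain ⟨J, hJ, hs⟩ := hng
        refine ⟨⟨J, hJ, exists_kill hx.2 (sI J hJ) hs⟩, ?_⟩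
        intro J hJ a c d k
        by_contra hac
        push Not at hac
        have hdz : d ≠ z := by rintro rfl; exact k.dI hz
        have := hg (J.erase z) (Finset.mem_image_of_mem _ hJ) a d c x
          (by
            rw [Finset.mem_erase, Finset.mem_erase]
            exact ⟨(cyc_ne k.h1).1.symm, hac.1, k.aI⟩)
          (by rw [Finset.mem_erase]; exact fun h => k.aJ h.2)
          (by
            rw [Finset.mem_erase, Finset.mem_erase]
            exact ⟨(cyc_ne k.h2).2.1, hac.2, k.cI⟩)
          (by rw [Finset.mem_erase]; exact fun h => k.cJ h.2)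
          (by rw [Finset.mem_erase]; exact ⟨hdz, k.dJ⟩)
          (by rw [Finset.mem_erase, Finset.mem_erase]; exact fun h => k.dI h.2.2)
          (by rw [Finset.mem_erase]; exact ⟨hx.1, k.xJ⟩)
          (by rw [Finset.mem_erase]; exact fun h => h.1 rfl)
        have e1 := k.h1
        have e2 := k.h2
        refine this ?_ ?_
        · clear * - e1 e2; unfold cyc at *; omega
        · clear * - e1 e2; unfold cyc at *; omega
      obtain ⟨x, hx, y, hy, hxy, gx, gy⟩ := ih (I.erase z) (C.image (fun J => J.erase z)) hc'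
        (by omega)
        (by
          intro J hJ
          rw [Finset.mem_image] at hJ
          obtain ⟨K, hK, rfl⟩ := hJ
          exact sep_erase (sI K hK) z)
        (by
          intro J hJ J' hJ'
          rw [Finset.mem_image] at hJ hJ'
          obtain ⟨K, hK, rfl⟩ := hJ
          obtain ⟨K', hK', rfl⟩ := hJ'
          exact sep_erase (sC K hK K' hK') z)
      by_cases hgx : good f I C x
      · by_cases hgy : good f I C y
        · exact (hcon ⟨x, Finset.mem_of_mem_erase hx, y, Finset.mem_of_mem_erase hy, hxy,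
            hgx, hgy⟩).elim
        · exact ⟨y, key y hy gy hgy⟩
      · exact ⟨x, key x hx gx hgx⟩

end Pool.Agent.WS
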